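import Mathlib

set_option linter.unusedSectionVars false

/-!
# The Wiener algebra `ℓ¹(ℤ; A)`

`Wien A` is the Banach space of absolutely summable families `ℤ → A`, a commutative Banach
algebra under convolution when `A` is one.  `Wien.mapC` are coefficientwise operators,
`Wien.ev x` is the evaluation `∑ k, e^{ikx} f k`, `Wien.HasD f g` means `g k = i k f k`.
-/

open Filter Topology
open scoped ENNReal

namespace Pool.Agent.Work.MP_4a14ce_an

/-- The Banach space `ℓ¹(ℤ; A)`. -/
def Wien (A : Type*) [NormedAddCommGroup A] : Type _ := lp (fun _ : ℤ => A) 1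

namespace Wien

section add

variable {A : Type*} [NormedAddCommGroup A]

noncomputable instance : NormedAddCommGroup (Wien A) :=
  inferInstanceAs (NormedAddCommGroup (lp (fun _ : ℤ => A) 1))

noncomputable instance [CompleteSpace A] : CompleteSpace (Wien A) :=
  inferInstanceAs (CompleteSpace (lp (fun _ : ℤ => A) 1))

/-- only the complex structure is an instance (the real one is `NormedSpace.complexToReal`) -/
noncomputable instance [NormedSpace ℂ A] : NormedSpace ℂ (Wien A) :=
  inferInstanceAs (NormedSpace ℂ (lp (fun _ : ℤ => A) 1))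

/-- the underlying family -/
def coeff (f : Wien A) : ℤ → A := (f : lp (fun _ : ℤ => A) 1).1

instance : CoeFun (Wien A) (fun _ => ℤ → A) := ⟨coeff⟩

@[ext] theorem ext {f g : Wien A} (h : ∀ k, f k = g k) : f = g := Subtype.ext (funext h)

@[simp] theorem add_apply (f g : Wien A) (k : ℤ) : (f + g) k = f k + g k := rfl
@[simp] theorem sub_apply (f g : Wien A) (k : ℤ) : (f - g) k = f k - g k := rfl
@[simp] theorem neg_apply (f : Wien A) (k : ℤ) : (-f) k = - f k := rfl
@[simp] theorem zero_apply (k : ℤ) : (0 : Wien A) k = 0 := rfl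
@[simp] theorem smul_apply [NormedSpace ℂ A] (c : ℂ) (f : Wien A)
    (k : ℤ) : (c • f) k = c • f k := rfl

theorem sum_apply {ι : Type*} (s : Finset ι) (f : ι → Wien A) (k : ℤ) :
    (∑ i ∈ s, f i) k = ∑ i ∈ s, f i k := by
  classical
  induction s using Finset.induction_on with
  | empty => simp
  | insert a s ha ih => rw [Finset.sum_insert ha, Finset.sum_insert ha, add_apply, ih]

theorem summable_norm (f : Wien A) : Summable fun k => ‖f k‖ := by
  have h := (memℓp_gen_iff (p := 1) (by simp)).1 (lp.memℓp (f : lp (fun _ : ℤ => A) 1))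
  have h' : Summable fun k => ‖f k‖ ^ (1 : ℝ≥0∞).toReal := h
  simpa using h'

theorem norm_eq (f : Wien A) : ‖f‖ = ∑' k, ‖f k‖ := by
  have h := lp.norm_eq_tsum_rpow (p := 1) (by simp) (f : lp (fun _ : ℤ => A) 1)
  have h' : ‖f‖ = (∑' i, ‖f i‖ ^ (1 : ℝ≥0∞).toReal) ^ (1 / (1 : ℝ≥0∞).toReal) := h
  simpa using h'

/-- constructor from summability of the norms -/
def mk (f : ℤ → A) (hf : Summable fun k => ‖f k‖) : Wien A :=
  (⟨f, memℓp_gen (p := 1) (by simpa using hf)⟩ : lp (fun _ : ℤ => A) 1)

@[simp] theorem mk_apply (f : ℤ → A) (hf : Summable fun k => ‖f k‖) (k : ℤ) : mk f hf k = f k := rfl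

theorem norm_le_tsum {f : Wien A} {g : ℤ → ℝ} (hg : Summable g) (h : ∀ k, ‖f k‖ ≤ g k) :
    ‖f‖ ≤ ∑' k, g k := by
  rw [norm_eq]
  exact (summable_norm f).tsum_le_tsum h hg

theorem norm_apply_le (f : Wien A) (k : ℤ) : ‖f k‖ ≤ ‖f‖ := by
  rw [norm_eq]
  exact (summable_norm f).le_tsum k (fun _ _ => norm_nonneg _)

theorem summable_apply [CompleteSpace A] (f : Wien A) : Summable fun k => f k :=
  Summable.of_norm (summable_norm f)

/-- the family supported at `i` with value `a` -/
noncomputable def single (i : ℤ) (a : A) : Wien A := by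
  classical
  exact (lp.single 1 i a : lp (fun _ : ℤ => A) 1)

@[simp] theorem single_self (i : ℤ) (a : A) : single i a i = a := by
  classical
  exact lp.single_apply_self (E := fun _ : ℤ => A) 1 i a

theorem single_ne {i j : ℤ} (a : A) (h : j ≠ i) : single i a j = 0 := by
  classical
  exact lp.single_apply_ne (E := fun _ : ℤ => A) 1 i a h

theorem single_apply (i : ℤ) (a : A) (j : ℤ) : single i a j = if j = i then a else 0 := by
  split_ifs with h
  · rw [h, single_self]
  · exact single_ne a h

@[simp] theorem norm_single (i : ℤ) (a : A) : ‖single i a‖ = ‖a‖ := by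
  rw [norm_eq, tsum_eq_single i]
  · rw [single_self]
  · intro j hj
    rw [single_ne a hj, norm_zero]

theorem hasSum_single (f : Wien A) : HasSum (fun k => single k (f k)) f := by
  classical
  exact lp.hasSum_single (p := 1) (by simp) (f : lp (fun _ : ℤ => A) 1)

end add

section cl

variable {A A' : Type*} [NormedAddCommGroup A] [NormedSpace ℂ A] [NormedAddCommGroup A']
  [NormedSpace ℂ A']

/-- the coefficient functional -/
noncomputable def coef (k : ℤ) : Wien A →L[ℂ] A :=
  LinearMap.mkContinuous
    { toFun := fun f => f k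
      map_add' := fun f g => rfl
      map_smul' := fun c f => rfl } 1 (fun f => by
        rw [one_mul]
        exact norm_apply_le f k)

@[simp] theorem coef_apply (k : ℤ) (f : Wien A) : coef k f = f k := rfl

theorem single_add (i : ℤ) (a b : A) : single i (a + b) = single i a + single i b := by
  ext j
  rw [add_apply, single_apply, single_apply, single_apply]
  split_ifs <;> simp

theorem single_smul (i : ℤ) (c : ℂ) (a : A) : single i (c • a) = c • single i a := by
  ext j
  rw [smul_apply, single_apply, single_apply]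
  split_ifs <;> simp

/-- `single i` as an isometric embedding -/
noncomputable def singleL (i : ℤ) : A →L[ℂ] Wien A :=
  LinearMap.mkContinuous
    { toFun := fun a => single i a
      map_add' := single_add i
      map_smul' := single_smul i } 1 (fun a => by simp)

@[simp] theorem singleL_apply (i : ℤ) (a : A) : singleL i a = single i a := rfl

/-- continuous linear maps which agree on the `single`s agree -/
theorem clm_ext {F : Type*} [NormedAddCommGroup F] [NormedSpace ℂ F] {S T : Wien A →L[ℂ] F}
    (h : ∀ i a, S (single i a) = T (single i a)) : S = T := by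
  ext f
  have hS := S.hasSum (hasSum_single f)
  have hT := T.hasSum (hasSum_single f)
  have : (fun k => S (single k (f k))) = fun k => T (single k (f k)) := funext fun k => h k _
  rw [this] at hS
  exact hS.unique hT

/-- coefficientwise operators -/
noncomputable def mapC (T : ℤ → A →L[ℂ] A') (M : ℝ) (hT : ∀ k, ‖T k‖ ≤ M) :
    Wien A →L[ℂ] Wien A' :=
  have key : ∀ (f : Wien A) (k : ℤ), ‖T k (f k)‖ ≤ M * ‖f k‖ := fun f k =>
    (T k).le_of_opNorm_le (hT k) _
  LinearMap.mkContinuous
    { toFun := fun f => mk (fun k => T k (f k))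
        (((summable_norm f).mul_left M).of_nonneg_of_le (fun _ => norm_nonneg _) (key f))
      map_add' := fun f g => by ext k; simp
      map_smul' := fun c f => by ext k; simp } M (fun f => by
        rw [norm_eq f, ← tsum_mul_left]
        exact norm_le_tsum ((summable_norm f).mul_left M) (key f))

@[simp] theorem mapC_apply (T : ℤ → A →L[ℂ] A') (M : ℝ) (hT : ∀ k, ‖T k‖ ≤ M) (f : Wien A)
    (k : ℤ) : mapC T M hT f k = T k (f k) := rfl

theorem norm_mapC_le (T : ℤ → A →L[ℂ] A') (M : ℝ) (hT : ∀ k, ‖T k‖ ≤ M) :
    ‖mapC T M hT‖ ≤ M := by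
  refine ContinuousLinearMap.opNorm_le_bound _ ((norm_nonneg _).trans (hT 0)) fun f => ?_
  rw [norm_eq f, ← tsum_mul_left]
  exact norm_le_tsum ((summable_norm f).mul_left M) fun k => (T k).le_of_opNorm_le (hT k) _

/-- scalar multipliers -/
noncomputable def mult (m : ℤ → ℂ) (M : ℝ) (hm : ∀ k, ‖m k‖ ≤ M) : Wien A →L[ℂ] Wien A :=
  mapC (fun k => m k • ContinuousLinearMap.id ℂ A) M (fun k => by
    refine (norm_smul_le (m k) (ContinuousLinearMap.id ℂ A)).trans ?_
    have h1 : ‖ContinuousLinearMap.id ℂ A‖ ≤ 1 := ContinuousLinearMap.norm_id_le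
    calc ‖m k‖ * ‖ContinuousLinearMap.id ℂ A‖ ≤ ‖m k‖ * 1 :=
          mul_le_mul_of_nonneg_left h1 (norm_nonneg _)
      _ ≤ M := by rw [mul_one]; exact hm k)

@[simp] theorem mult_apply (m : ℤ → ℂ) (M : ℝ) (hm : ∀ k, ‖m k‖ ≤ M) (f : Wien A) (k : ℤ) :
    mult m M hm f k = m k • f k := rfl

theorem norm_mult_le (m : ℤ → ℂ) (M : ℝ) (hm : ∀ k, ‖m k‖ ≤ M) :
    ‖(mult m M hm : Wien A →L[ℂ] Wien A)‖ ≤ M := norm_mapC_le _ _ _

/-- `g` is the derivative of `f` -/
def HasD (f g : Wien A) : Prop := ∀ k : ℤ, g k = (Complex.I * k) • f k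

theorem HasD.add {f f' g g' : Wien A} (hf : HasD f f') (hg : HasD g g') :
    HasD (f + g) (f' + g') := fun k => by
  rw [add_apply, add_apply, hf k, hg k, smul_add]

theorem HasD.sub {f f' g g' : Wien A} (hf : HasD f f') (hg : HasD g g') :
    HasD (f - g) (f' - g') := fun k => by
  rw [sub_apply, sub_apply, hf k, hg k, smul_sub]

theorem HasD.neg {f f' : Wien A} (hf : HasD f f') : HasD (-f) (-f') := fun k => by
  rw [neg_apply, neg_apply, hf k, smul_neg]

theorem HasD.smul {f f' : Wien A} (c : ℂ) (hf : HasD f f') : HasD (c • f) (c • f') := fun k => by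
  rw [smul_apply, smul_apply, hf k, smul_comm c (Complex.I * k) (f k)]

theorem HasD.zero : HasD (0 : Wien A) 0 := fun k => by simp

theorem HasD.sum {ι : Type*} (s : Finset ι) {f f' : ι → Wien A} (h : ∀ i ∈ s, HasD (f i) (f' i)) :
    HasD (∑ i ∈ s, f i) (∑ i ∈ s, f' i) := fun k => by
  rw [sum_apply, sum_apply, Finset.smul_sum]
  exact Finset.sum_congr rfl fun i hi => h i hi k

/-- the mean value of a derivative vanishes -/
theorem HasD.mean {f f' : Wien A} (hf : HasD f f') : f' 0 = 0 := by
  rw [hf 0]; simp

theorem HasD.unique {f g g' : Wien A} (h : HasD f g) (h' : HasD f g') : g = g' :=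
  ext fun k => (h k).trans (h' k).symm

end cl

/-! ## the ring structure -/

section ring

variable {A : Type*} [NormedCommRing A] [NormedAlgebra ℂ A] [CompleteSpace A]

/-- auxiliary bijection -/
def convEquiv : ℤ × ℤ ≃ ℤ × ℤ where
  toFun x := (x.2, x.1 - x.2)
  invFun x := (x.1 + x.2, x.1)
  left_inv x := by ext <;> simp
  right_inv x := by ext <;> simp

omit [NormedAlgebra ℂ A] [CompleteSpace A] in
theorem summable_conv (f g : Wien A) :
    Summable (fun x : ℤ × ℤ => ‖f x.2‖ * ‖g (x.1 - x.2)‖) := by
  have h := (summable_norm f).mul_of_nonneg (summable_norm g) (fun _ => norm_nonneg _)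
    (fun _ => norm_nonneg _)
  exact (convEquiv.summable_iff (f := fun x : ℤ × ℤ => ‖f x.1‖ * ‖g x.2‖)).2 h

omit [NormedAlgebra ℂ A] [CompleteSpace A] in
theorem summable_conv_norm (f g : Wien A) (k : ℤ) : Summable fun j => ‖f j‖ * ‖g (k - j)‖ :=
  (summable_conv f g).prod_factor k

omit [NormedAlgebra ℂ A] in
theorem summable_conv_apply (f g : Wien A) (k : ℤ) : Summable fun j => f j * g (k - j) :=
  Summable.of_norm_bounded (summable_conv_norm f g k) (fun _ => norm_mul_le _ _)

omit [NormedAlgebra ℂ A] in
theorem norm_conv_le (f g : Wien A) (k : ℤ) :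
    ‖∑' j, f j * g (k - j)‖ ≤ ∑' j, ‖f j‖ * ‖g (k - j)‖ :=
  tsum_of_norm_bounded (summable_conv_norm f g k).hasSum (fun _ => norm_mul_le _ _)

omit [NormedAlgebra ℂ A] [CompleteSpace A] in
theorem tsum_conv (f g : Wien A) :
    Summable (fun k => ∑' j, ‖f j‖ * ‖g (k - j)‖) ∧
      ∑' k, ∑' j, ‖f j‖ * ‖g (k - j)‖ = ‖f‖ * ‖g‖ := by
  refine ⟨(summable_conv f g).prod, ?_⟩
  rw [← (summable_conv f g).tsum_prod, norm_eq f, norm_eq g,
    (summable_norm f).tsum_mul_tsum (summable_norm g)
      ((summable_norm f).mul_of_nonneg (summable_norm g) (fun _ => norm_nonneg _)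
        (fun _ => norm_nonneg _))]
  exact convEquiv.tsum_eq (fun x : ℤ × ℤ => ‖f x.1‖ * ‖g x.2‖)

omit [NormedAlgebra ℂ A] in
theorem summable_conv_tsum (f g : Wien A) : Summable fun k => ‖∑' j, f j * g (k - j)‖ :=
  (tsum_conv f g).1.of_nonneg_of_le (fun _ => norm_nonneg _) (norm_conv_le f g)

noncomputable instance : Mul (Wien A) :=
  ⟨fun f g => mk (fun k => ∑' j, f j * g (k - j)) (summable_conv_tsum f g)⟩

omit [NormedAlgebra ℂ A] in
theorem mul_apply (f g : Wien A) (k : ℤ) : (f * g) k = ∑' j, f j * g (k - j) := rfl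

noncomputable instance : One (Wien A) := ⟨single 0 1⟩

omit [NormedAlgebra ℂ A] [CompleteSpace A] in
theorem one_def : (1 : Wien A) = single 0 1 := rfl

omit [NormedAlgebra ℂ A] in
theorem norm_mul_le' (f g : Wien A) : ‖f * g‖ ≤ ‖f‖ * ‖g‖ := by
  rw [← (tsum_conv f g).2]
  exact norm_le_tsum (tsum_conv f g).1 (norm_conv_le f g)

omit [NormedAlgebra ℂ A] in
theorem mul_comm' (f g : Wien A) : f * g = g * f := by
  ext k
  rw [mul_apply, mul_apply, ← (Equiv.subLeft k).tsum_eq]
  refine tsum_congr fun j => ?_
  rw [Equiv.subLeft_apply, sub_sub_cancel, mul_comm]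

omit [NormedAlgebra ℂ A] in
theorem add_mul' (f g h : Wien A) : (f + g) * h = f * h + g * h := by
  ext k
  rw [add_apply, mul_apply, mul_apply, mul_apply,
    ← (summable_conv_apply f h k).tsum_add (summable_conv_apply g h k)]
  refine tsum_congr fun j => ?_
  rw [add_apply, add_mul]

theorem smul_mul' (c : ℂ) (f g : Wien A) : (c • f) * g = c • (f * g) := by
  ext k
  rw [smul_apply, mul_apply, mul_apply, ← (summable_conv_apply f g k).tsum_const_smul c]
  refine tsum_congr fun j => ?_
  rw [smul_apply, smul_mul_assoc]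

omit [NormedAlgebra ℂ A] in
theorem single_mul_apply (i : ℤ) (a : A) (g : Wien A) (k : ℤ) :
    (single i a * g) k = a * g (k - i) := by
  rw [mul_apply, tsum_eq_single i]
  · rw [single_self]
  · intro j hj
    rw [single_ne a hj, zero_mul]

/-- right multiplication as a continuous linear map -/
noncomputable def mulR (g : Wien A) : Wien A →L[ℂ] Wien A :=
  LinearMap.mkContinuous
    { toFun := fun f => f * g
      map_add' := fun f h => add_mul' f h g
      map_smul' := fun c f => smul_mul' c f g } ‖g‖ (fun f => by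
        rw [mul_comm]; exact norm_mul_le' f g)

@[simp] theorem mulR_apply (f g : Wien A) : mulR g f = f * g := rfl

theorem mul_assoc' (f g h : Wien A) : f * g * h = f * (g * h) := by
  have : (mulR h).comp (mulR g) = mulR (g * h) := by
    refine clm_ext fun i a => ?_
    ext k
    rw [ContinuousLinearMap.comp_apply, mulR_apply, mulR_apply, mulR_apply, single_mul_apply,
      mul_apply, mul_apply, ← (summable_conv_apply g h (k - i)).tsum_mul_left a,
      ← (Equiv.subRight i).tsum_eq (fun j => a * (g j * h (k - i - j)))]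
    refine tsum_congr fun j => ?_
    rw [single_mul_apply, Equiv.subRight_apply, mul_assoc, sub_sub_sub_cancel_right]
  exact congrArg (fun T : Wien A →L[ℂ] Wien A => T f) this

omit [NormedAlgebra ℂ A] in
theorem one_mul' (f : Wien A) : 1 * f = f := by
  ext k
  rw [one_def, single_mul_apply, one_mul, sub_zero]

noncomputable instance : CommRing (Wien A) :=
  { (inferInstance : AddCommGroup (Wien A)) with
    mul := (· * ·)
    one := 1
    mul_assoc := mul_assoc'
    mul_comm := mul_comm'
    one_mul := one_mul'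
    mul_one := fun f => by rw [mul_comm' f 1, one_mul' f]
    left_distrib := fun f g h => by
      rw [mul_comm' f (g + h), add_mul', mul_comm' g f, mul_comm' h f]
    right_distrib := add_mul'
    zero_mul := fun f => by
      have h := add_mul' 0 0 f
      rw [add_zero] at h
      simpa using h
    mul_zero := fun f => by
      have h := add_mul' 0 0 f
      rw [add_zero, mul_comm' 0 f] at h
      simpa using h }

noncomputable instance : NormedCommRing (Wien A) :=
  { (inferInstance : NormedAddCommGroup (Wien A)), (inferInstance : CommRing (Wien A)) with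
    norm_mul_le := norm_mul_le' }

noncomputable instance : Algebra ℂ (Wien A) :=
  Algebra.ofModule (fun c f g => smul_mul' c f g)
    (fun c f g => by rw [mul_comm f (c • g), smul_mul', mul_comm g f])

noncomputable instance : NormedAlgebra ℂ (Wien A) :=
  { (inferInstance : Algebra ℂ (Wien A)) with
    norm_smul_le := fun c f => norm_smul_le c f }

instance [NormOneClass A] : NormOneClass (Wien A) := ⟨by rw [one_def, norm_single, norm_one]⟩

theorem algebraMap_eq (c : ℂ) : algebraMap ℂ (Wien A) c = single 0 (algebraMap ℂ A c) := by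
  rw [Algebra.algebraMap_eq_smul_one, Algebra.algebraMap_eq_smul_one, single_smul, one_def]

theorem HasD.mul {f f' g g' : Wien A} (hf : HasD f f') (hg : HasD g g') :
    HasD (f * g) (f' * g + f * g') := fun k => by
  rw [add_apply, mul_apply, mul_apply, mul_apply,
    ← (summable_conv_apply f' g k).tsum_add (summable_conv_apply f g' k),
    ← (summable_conv_apply f g k).tsum_const_smul]
  refine tsum_congr fun j => ?_
  rw [hf j, hg (k - j), smul_mul_assoc, mul_smul_comm, ← add_smul]
  congr 1
  push_cast
  ring

theorem HasD.one : HasD (1 : Wien A) 0 := fun k => by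
  rw [one_def, single_apply, zero_apply]
  split_ifs with h
  · simp [h]
  · simp

theorem HasD.const (a : A) : HasD (single 0 a : Wien A) 0 := fun k => by
  rw [single_apply, zero_apply]
  split_ifs with h
  · simp [h]
  · simp

/-! ## evaluation at a point -/

/-- `e^{ikx}` -/
noncomputable def ee (x : ℝ) (k : ℤ) : ℂ := Complex.exp (Complex.I * k * x)

theorem norm_ee (x : ℝ) (k : ℤ) : ‖ee x k‖ = 1 := by
  have : Complex.I * k * x = ((k * x : ℝ) : ℂ) * Complex.I := by push_cast; ring
  rw [ee, this, Complex.norm_exp_ofReal_mul_I]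

theorem ee_add (x : ℝ) (k l : ℤ) : ee x (k + l) = ee x k * ee x l := by
  rw [ee, ee, ee, ← Complex.exp_add]
  congr 1
  push_cast
  ring

@[simp] theorem ee_zero (x : ℝ) : ee x 0 = 1 := by simp [ee]

theorem summable_ev (x : ℝ) (f : Wien A) : Summable fun k => ee x k • f k :=
  Summable.of_norm (by
    simpa [norm_smul, norm_ee] using summable_norm f)

/-- evaluation `∑ k, e^{ikx} f k` as a continuous linear map -/
noncomputable def evL (x : ℝ) : Wien A →L[ℂ] A :=
  LinearMap.mkContinuous
    { toFun := fun f => ∑' k, ee x k • f k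
      map_add' := fun f g => by
        rw [← (summable_ev x f).tsum_add (summable_ev x g)]
        exact tsum_congr fun k => by rw [add_apply, smul_add]
      map_smul' := fun c f => by
        rw [RingHom.id_apply, ← (summable_ev x f).tsum_const_smul c]
        exact tsum_congr fun k => by rw [smul_apply, smul_comm] } 1 (fun f => by
        rw [one_mul, norm_eq f]
        refine tsum_of_norm_bounded (summable_norm f).hasSum fun k => ?_
        rw [norm_smul, norm_ee, one_mul])

theorem evL_apply (x : ℝ) (f : Wien A) : evL x f = ∑' k, ee x k • f k := rfl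

theorem hasSum_ev (x : ℝ) (f : Wien A) : HasSum (fun k => ee x k • f k) (evL x f) :=
  (summable_ev x f).hasSum

theorem norm_evL_le (x : ℝ) (f : Wien A) : ‖evL x f‖ ≤ ‖f‖ := by
  rw [evL_apply, norm_eq f]
  refine tsum_of_norm_bounded (summable_norm f).hasSum fun k => ?_
  rw [norm_smul, norm_ee, one_mul]

theorem evL_single (x : ℝ) (i : ℤ) (a : A) : evL x (single i a) = ee x i • a := by
  rw [evL_apply, tsum_eq_single i]
  · rw [single_self]
  · intro j hj
    rw [single_ne a hj, smul_zero]

theorem evL_mul (x : ℝ) (f g : Wien A) : evL x (f * g) = evL x f * evL x g := by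
  have : (evL x).comp (mulR g) =
      ((ContinuousLinearMap.mul ℂ A).flip (evL x g)).comp (evL x) := by
    refine clm_ext fun i a => ?_
    rw [ContinuousLinearMap.comp_apply, ContinuousLinearMap.comp_apply, mulR_apply, evL_single,
      ContinuousLinearMap.flip_apply, ContinuousLinearMap.mul_apply', evL_apply,
      ← (Equiv.addRight i).tsum_eq, smul_mul_assoc, evL_apply,
      ← (summable_ev x g).tsum_mul_left a,
      ← ((summable_ev x g).mul_left a).tsum_const_smul (ee x i)]
    refine tsum_congr fun k => ?_
    rw [Equiv.coe_addRight, single_mul_apply, add_sub_cancel_right, ee_add, mul_smul_comm,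
      smul_smul, mul_comm (ee x k)]
  exact congrArg (fun T : Wien A →L[ℂ] A => T f) this

/-- evaluation as a ring homomorphism -/
noncomputable def evR (x : ℝ) : Wien A →+* A where
  toFun := evL x
  map_one' := by rw [one_def, evL_single, ee_zero, one_smul]
  map_mul' := evL_mul x
  map_zero' := (evL x).map_zero
  map_add' := (evL x).map_add

@[simp] theorem evR_apply (x : ℝ) (f : Wien A) : evR x f = evL x f := rfl

@[simp] theorem evL_one (x : ℝ) : evL x (1 : Wien A) = 1 := (evR x : Wien A →+* A).map_one

end ring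

end Wien

end Pool.Agent.Work.MP_4a14ce_an
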