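import Pool.Agent.Work.MP_4a14ce_an.Bd.B01

/-!
# Uniqueness of the elastic flow on bounded time intervals: definitions
-/

open Set MeasureTheory Topology Filter
open scoped ContDiff

namespace Pool.Agent.Work.MP_4a14ce_an

/-- Elastic flow on `[0, T)` with initial datum `γ₀`: a smooth family of closed curves with
`∂_t γ = - ∇E(γ_t)`. -/
structure IsElasticFlowOn (σ : ℝ) {n : ℕ} (T : ℝ) (γ₀ : ℝ → V n) (γ : ℝ → ℝ → V n) : Prop where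
  smooth : ContDiffOn ℝ ∞ (fun z : ℝ × ℝ => γ z.1 z.2) (Ico 0 T ×ˢ univ)
  closed : ∀ t ∈ Ico (0 : ℝ) T, IsClosedCurve σ (γ t)
  start : γ 0 = γ₀
  flow : ∀ t ∈ Ico (0 : ℝ) T,
    IsL2Gradient σ (γ t) (fun x => - derivWithin (fun s => γ s x) (Ico 0 T) t)

/-- Local uniqueness: if `γ` is an elastic flow on `[0, ∞)` and `γ'` is an elastic flow on `[0, T)`
with the same initial datum, then `γ'` is the restriction of `γ` to `[0, T)`. -/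
def LU (σ : ℝ) (n : ℕ) : Prop :=
  ∀ (γ₀ : ℝ → V n) (γ : ℝ → ℝ → V n), IsElasticFlow σ γ₀ γ →
    ∀ (T : ℝ) (γ' : ℝ → ℝ → V n), 0 < T → IsElasticFlowOn σ T γ₀ γ' →
      ∀ t ∈ Ico (0 : ℝ) T, γ' t = γ t

/-- Elastic flow on the interval `I` (auxiliary). -/
structure FlowI (σ : ℝ) {n : ℕ} (I : Set ℝ) (γ₀ : ℝ → V n) (γ : ℝ → ℝ → V n) : Prop where
  smooth : ContDiffOn ℝ ∞ (fun z : ℝ × ℝ => γ z.1 z.2) (I ×ˢ univ)
  closed : ∀ t ∈ I, IsClosedCurve σ (γ t)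
  start : γ 0 = γ₀
  flow : ∀ t ∈ I, IsL2Gradient σ (γ t) (fun x => - derivWithin (fun s => γ s x) I t)

/-- constant speed reparametrisation of a smooth family on `I` -/
def ClaimArcI : Prop := ∀ (n : ℕ) (σ : ℝ) (I : Set ℝ) (γ : ℝ → ℝ → V n), Sgn σ → Itv I →
  UniqueDiffOn ℝ I → JS I γ → (∀ t ∈ I, IsClosedCurve σ (γ t)) →
  ∃ (X : ℝ → ℝ → ℝ) (p : ℝ → ℝ), JS I (fun t => arcY σ (γ t)) ∧ JS I X ∧
    ContDiffOn ℝ ∞ p I ∧ ∀ t ∈ I, IsReparam (arcY σ (γ t)) ∧ IsReparam (X t) ∧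
      arcY σ (γ t) 0 = 0 ∧ (∀ x, X t (arcY σ (γ t) x) = x ∧ arcY σ (γ t) (X t x) = x) ∧
      Con σ (p t) (fun y => γ t (X t y))

/-- an elastic flow on `I`, reparametrised to constant speed, solves the semilinear equation -/
def ClaimFlowToTI : Prop := ∀ (n : ℕ) (σ : ℝ) (I : Set ℝ) (γ₀ : ℝ → V n) (γ : ℝ → ℝ → V n),
  Sgn σ → Itv I → UniqueDiffOn ℝ I → FlowI σ I γ₀ γ →
  ∃ (X : ℝ → ℝ → ℝ) (p : ℝ → ℝ), TSol σ I (fun t y => γ t (X t y)) p ∧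
    (∀ t ∈ I, ∀ x, X t (arcY σ (γ t) x) = x ∧ arcY σ (γ t) (X t x) = x) ∧
    ∀ t ∈ I, ∀ x, HasDerivWithinAt (fun s => arcY σ (γ s) x)
      (-((p t ^ 2)⁻¹ * xi σ (p t) (p t)⁻¹ (fun y => γ t (X t y)) (arcY σ (γ t) x))) I t

def ClaimTUniqueI : Prop := ∀ (n : ℕ) (σ T : ℝ) (u v : ℝ → ℝ → V n) (p q : ℝ → ℝ), Sgn σ →
  0 < T → TSol σ (Icc 0 T) u p → TSol σ (Icc 0 T) v q → u 0 = v 0 →
  ∀ t ∈ Icc 0 T, u t = v t ∧ p t = q t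

end Pool.Agent.Work.MP_4a14ce_an
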