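import Pool.Agent.Work.MP_4a14ce_an.Bd.B01

/-!
# Group W: the Wiener algebra with values in `C([0,1], ℂ)`: definitions and basic lemmas
-/

open Set MeasureTheory Topology Filter
open scoped ContDiff ENNReal

namespace Pool.Agent.Work.MP_4a14ce_an

namespace WN

/-- continuous complex functions of the rescaled time `θ ∈ [0,1]` -/
abbrev A : Type := C(unitInterval, ℂ)

/-- absolutely summable sequences of Fourier coefficients -/
abbrev W : Type := lp (fun _ : ℤ => A) 1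

/-- the weight `1 + |k|` -/
noncomputable def wt (k : ℤ) : ℝ := 1 + |(k : ℝ)|

/-- extension of a function on `[0,1]` to the line (constant outside) -/
noncomputable def ex (g : A) (t : ℝ) : ℂ := g (projIcc 0 1 zero_le_one t)

/-! ### elements of `W` -/

noncomputable def mkW (f : ℤ → A) (h : Summable fun k => ‖f k‖) : W :=
  ⟨f, memℓp_gen (by simpa using h)⟩

@[simp] lemma mkW_apply (f : ℤ → A) (h : Summable fun k => ‖f k‖) (k : ℤ) : mkW f h k = f k := rfl

lemma summable_norm (f : W) : Summable fun k => ‖f k‖ := by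
  have := (lp.memℓp f).summable (by norm_num : (0 : ℝ) < (1 : ℝ≥0∞).toReal)
  simpa using this

lemma norm_eq (f : W) : ‖f‖ = ∑' k, ‖f k‖ := by
  rw [lp.norm_eq_tsum_rpow (by norm_num : (0 : ℝ) < (1 : ℝ≥0∞).toReal)]
  simp

lemma norm_le_of_sum {f : W} {C : ℝ} (h : ∀ s : Finset ℤ, ∑ k ∈ s, ‖f k‖ ≤ C) : ‖f‖ ≤ C := by
  rw [norm_eq]
  exact (summable_norm f).tsum_le_of_sum_le h

lemma sum_le_norm (f : W) (s : Finset ℤ) : ∑ k ∈ s, ‖f k‖ ≤ ‖f‖ := by
  rw [norm_eq]
  exact (summable_norm f).sum_le_tsum s (fun _ _ => norm_nonneg _)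

lemma apply_le_norm (f : W) (k : ℤ) : ‖f k‖ ≤ ‖f‖ := by
  have := sum_le_norm f {k}
  simpa using this

lemma ext_W {f g : W} (h : ∀ k, f k = g k) : f = g := lp.ext (funext h)

/-! ### convolution of real sequences -/

lemma conv_prod_summable {a b : ℤ → ℝ} (ha : Summable a) (hb : Summable b) (ha0 : ∀ k, 0 ≤ a k)
    (hb0 : ∀ k, 0 ≤ b k) : Summable fun p : ℤ × ℤ => a p.2 * b (p.1 - p.2) := by
  have h := ha.mul_of_nonneg hb (fun k => ha0 k) (fun k => hb0 k)
  let e : ℤ × ℤ ≃ ℤ × ℤ :=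
    { toFun := fun p => (p.2, p.1 - p.2)
      invFun := fun q => (q.1 + q.2, q.1)
      left_inv := fun p => by simp
      right_inv := fun q => by simp }
  exact (e.summable_iff (f := fun q : ℤ × ℤ => a q.1 * b q.2)).mpr h

lemma conv_row_summable {a b : ℤ → ℝ} (ha : Summable a) (hb : Summable b) (ha0 : ∀ k, 0 ≤ a k)
    (hb0 : ∀ k, 0 ≤ b k) (k : ℤ) : Summable fun j => a j * b (k - j) :=
  (conv_prod_summable ha hb ha0 hb0).prod_factor k

lemma conv_sum_summable {a b : ℤ → ℝ} (ha : Summable a) (hb : Summable b) (ha0 : ∀ k, 0 ≤ a k)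
    (hb0 : ∀ k, 0 ≤ b k) : Summable fun k => ∑' j, a j * b (k - j) :=
  (conv_prod_summable ha hb ha0 hb0).prod

lemma conv_tsum {a b : ℤ → ℝ} (ha : Summable a) (hb : Summable b) (ha0 : ∀ k, 0 ≤ a k)
    (hb0 : ∀ k, 0 ≤ b k) : ∑' k, ∑' j, a j * b (k - j) = (∑' k, a k) * ∑' k, b k := by
  have h := ha.mul_of_nonneg hb (fun k => ha0 k) (fun k => hb0 k)
  let e : ℤ × ℤ ≃ ℤ × ℤ :=
    { toFun := fun p => (p.2, p.1 - p.2)
      invFun := fun q => (q.1 + q.2, q.1)
      left_inv := fun p => by simp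
      right_inv := fun q => by simp }
  rw [ha.tsum_mul_tsum hb h, ← (conv_prod_summable ha hb ha0 hb0).tsum_prod]
  exact e.tsum_eq (fun q : ℤ × ℤ => a q.1 * b q.2)

/-! ### convolution in `W` -/

noncomputable def convF (f g : ℤ → A) (k : ℤ) : A := ∑' j, f j * g (k - j)

lemma convF_norm_le (f g : W) (k : ℤ) : ‖convF f g k‖ ≤ ∑' j, ‖f j‖ * ‖g (k - j)‖ := by
  have h := conv_row_summable (a := fun k => ‖f k‖) (b := fun k => ‖g k‖) (summable_norm f)
    (summable_norm g) (fun _ => norm_nonneg _) (fun _ => norm_nonneg _) k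
  exact tsum_of_norm_bounded h.hasSum (fun _ => norm_mul_le _ _)

lemma convF_summable (f g : W) : Summable fun k => ‖convF f g k‖ := by
  have h := conv_sum_summable (a := fun k => ‖f k‖) (b := fun k => ‖g k‖) (summable_norm f)
    (summable_norm g) (fun _ => norm_nonneg _) (fun _ => norm_nonneg _)
  exact Summable.of_nonneg_of_le (fun _ => norm_nonneg _) (convF_norm_le f g) h

noncomputable def conv (f g : W) : W := mkW (convF f g) (convF_summable f g)

lemma conv_apply (f g : W) (k : ℤ) : conv f g k = ∑' j, f j * g (k - j) := rfl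

lemma conv_row_summable' (f g : W) (k : ℤ) : Summable fun j => f j * g (k - j) :=
  Summable.of_norm_bounded (conv_row_summable (a := fun k => ‖f k‖) (b := fun k => ‖g k‖)
    (summable_norm f) (summable_norm g) (fun _ => norm_nonneg _) (fun _ => norm_nonneg _) k)
    (fun _ => norm_mul_le _ _)

/-! ### other operations -/

/-- coefficientwise operator (zero if the result is not summable) -/
noncomputable def opW (L : ℤ → A → A) (f : W) : W := by
  classical
  exact if h : Summable fun k => ‖L k (f k)‖ then mkW (fun k => L k (f k)) h else 0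

/-- Fourier multiplier -/
noncomputable def mulW (c : ℤ → ℂ) (f : W) : W := opW (fun k a => c k • a) f

/-- constant in `x` -/
noncomputable def cst (a : A) : W := lp.single 1 0 a

/-- value at `x = 0` -/
noncomputable def ev0 (f : W) : A := ∑' k, f k

/-- antiderivative of `f` minus its mean, vanishing at `x = 0` -/
noncomputable def anti (f : W) : W :=
  mulW (fun k => (Complex.I * k)⁻¹) f - cst (ev0 (mulW (fun k => (Complex.I * k)⁻¹) f))

/-- `j`-th derivative of the function with coefficients `f k / (1+|k|)^3` -/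
noncomputable def DD (j : ℕ) (f : W) : W := mulW (fun k => (Complex.I * k) ^ j / (wt k : ℂ) ^ 3) f

/-! ### the nonlinearity -/

variable {n : ℕ}

noncomputable def BWd (σ : ℝ) (f g : Fin (n + 1) → W) : W :=
  (σ : ℂ) • conv (f 0) (g 0) + ∑ i : Fin n, conv (f i.succ) (g i.succ)

noncomputable def rhoW (σ : ℝ) (P : A) (U : Fin (n + 1) → W) : W :=
  BWd σ (fun i => DD 2 (U i)) (fun i => DD 2 (U i)) - (σ : ℂ) • cst (P * P)

noncomputable def rhoxW (σ : ℝ) (U : Fin (n + 1) → W) : W :=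
  (2 : ℂ) • BWd σ (fun i => DD 2 (U i)) (fun i => DD 3 (U i))

noncomputable def etaW (σ : ℝ) (P : A) (U : Fin (n + 1) → W) : W :=
  BWd σ (fun i => DD 3 (U i)) (fun i => DD 3 (U i))
    - ((2 * σ : ℝ) : ℂ) • conv (cst P) (BWd σ (fun i => DD 2 (U i)) (fun i => DD 2 (U i)))
    + cst (P * (P * P))

noncomputable def betaW (σ : ℝ) (P M : A) (U : Fin (n + 1) → W) : W :=
  (3 : ℂ) • conv (cst M) (rhoW σ P U) + ((2 * σ - 1 : ℝ) : ℂ) • cst P

noncomputable def hhW (σ : ℝ) (P M : A) (U : Fin (n + 1) → W) : W :=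
  (2 : ℂ) • conv (cst M) (etaW σ P U)
    - (3 : ℂ) • conv (cst (M * M)) (conv (rhoW σ P U) (rhoW σ P U))
    - ((2 * σ - 1 : ℝ) : ℂ) • rhoW σ P U

noncomputable def muA (σ : ℝ) (P M : A) (U : Fin (n + 1) → W) : A := hhW σ P M U 0

noncomputable def alphaW (σ : ℝ) (P M : A) (U : Fin (n + 1) → W) : W :=
  (-4 : ℂ) • conv (cst M) (rhoxW σ U) + cst (M * ev0 (rhoxW σ U)) + anti (hhW σ P M U)

noncomputable def NW (σ : ℝ) (P M : A) (U : Fin (n + 1) → W) (i : Fin (n + 1)) : W :=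
  ((-(2 * σ) : ℝ) : ℂ) • conv (cst P) (DD 2 (U i)) + conv (alphaW σ P M U) (DD 1 (U i))
    + ((2 * σ : ℝ) : ℂ) • conv (rhoW σ P U) (DD 0 (U i))
    - conv (betaW σ P M U) (DD 2 (U i) + (σ : ℂ) • conv (cst P) (DD 0 (U i)))

/-! ### Duhamel operators -/

lemma ex_continuous (g : A) : Continuous (ex g) := g.continuous.comp continuous_projIcc

lemma duhK_cont (T : ℝ) (k : ℤ) (g : A) : Continuous fun θ : unitInterval =>
    ((T * Real.exp (-(2 * T * (k : ℝ) ^ 4 * θ)) : ℝ) : ℂ) *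
      ∫ r in (0 : ℝ)..θ, ((Real.exp (2 * T * (k : ℝ) ^ 4 * r) : ℝ) : ℂ) * ex g r := by
  have h1 : Continuous fun r : ℝ => ((Real.exp (2 * T * (k : ℝ) ^ 4 * r) : ℝ) : ℂ) * ex g r := by
    have := ex_continuous g
    fun_prop
  have h2 : Continuous fun θ : ℝ =>
      ∫ r in (0 : ℝ)..θ, ((Real.exp (2 * T * (k : ℝ) ^ 4 * r) : ℝ) : ℂ) * ex g r :=
    intervalIntegral.continuous_primitive (fun a b => h1.intervalIntegrable a b) 0
  have h3 := h2.comp continuous_subtype_val (X := unitInterval)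
  have h4 : Continuous fun θ : unitInterval =>
      ((T * Real.exp (-(2 * T * (k : ℝ) ^ 4 * θ)) : ℝ) : ℂ) := by fun_prop
  exact h4.mul h3

/-- `θ ↦ T ∫_0^θ e^{-2 T k^4 (θ - r)} g(r) dr` -/
noncomputable def duhK (T : ℝ) (k : ℤ) (g : A) : A :=
  ⟨fun θ => ((T * Real.exp (-(2 * T * (k : ℝ) ^ 4 * θ)) : ℝ) : ℂ) *
      ∫ r in (0 : ℝ)..θ, ((Real.exp (2 * T * (k : ℝ) ^ 4 * r) : ℝ) : ℂ) * ex g r,
    duhK_cont T k g⟩

/-- Duhamel operator on `W` (weighted by `(1+|k|)^3`) -/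
noncomputable def Duh (T : ℝ) (f : W) : W := opW (fun k a => ((wt k ^ 3 : ℝ) : ℂ) • duhK T k a) f

/-- free evolution of one coefficient -/
noncomputable def freeK (T : ℝ) (k : ℤ) (c : ℂ) : A :=
  ⟨fun θ => ((Real.exp (-(2 * T * (k : ℝ) ^ 4 * θ)) : ℝ) : ℂ) * c, by fun_prop⟩

/-- free evolution (weighted by `(1+|k|)^3`) -/
noncomputable def Free (T : ℝ) (c : ℤ → ℂ) : W := by
  classical
  exact if h : Summable fun k => ‖((wt k ^ 3 : ℝ) : ℂ) • freeK T k (c k)‖ then
    mkW (fun k => ((wt k ^ 3 : ℝ) : ℂ) • freeK T k (c k)) h else 0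

/-- the fixed point equation: mild solution on `[0,T]` in the rescaled time `θ = t / T` -/
structure Fx (σ T : ℝ) (c : Fin (n + 1) → ℤ → ℂ) (p0 m0 : ℝ) (U : Fin (n + 1) → W) (P M : A) :
    Prop where
  u : ∀ i, U i = Free T (c i) + Duh T (NW σ P M U i)
  p : P = algebraMap ℂ A (p0 : ℂ) + duhK T 0 ((-2 : ℂ) • (P * muA σ P M U))
  m : M = algebraMap ℂ A (m0 : ℂ) + duhK T 0 ((2 : ℂ) • (M * muA σ P M U))

/-- the coefficients of a real function -/
def Sym (f : W) : Prop := ∀ k, f (-k) = star (f k)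

/-- `∑ (1+|k|)^m sup_{θ ≥ d} |f_k(θ)| ≤ K` (with a majorant) -/
def WBd (m : ℕ) (d : ℝ) (f : W) (K : ℝ) : Prop :=
  ∃ b : ℤ → ℝ, (∀ k, 0 ≤ b k) ∧ (∀ (k : ℤ) (θ : unitInterval), d ≤ θ → ‖f k θ‖ ≤ b k) ∧
    ∀ s : Finset ℤ, ∑ k ∈ s, wt k ^ m * b k ≤ K

/-- rapidly decreasing coefficients -/
def Rapid (f : W) : Prop := ∀ m, ∃ K, WBd m 0 f K

/-- `g` is the time derivative of `f` -/
def TD (f g : W) : Prop := ∀ (k : ℤ), ∀ t ∈ Icc (0 : ℝ) 1,
  HasDerivWithinAt (ex (f k)) (ex (g k) t) (Icc 0 1) t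

def TDA (a b : A) : Prop := ∀ t ∈ Icc (0 : ℝ) 1, HasDerivWithinAt (ex a) (ex b t) (Icc 0 1) t

/-- `r` times differentiable in time with rapidly decreasing coefficients -/
def RW : ℕ → W → Prop
  | 0, f => Rapid f
  | r + 1, f => Rapid f ∧ ∃ g, RW r g ∧ TD f g

def RA : ℕ → A → Prop
  | 0, _ => True
  | r + 1, a => ∃ b, RA r b ∧ TDA a b

/-- the function with Fourier coefficients `f` -/
noncomputable def E (f : W) (t x : ℝ) : ℂ := ∑' k : ℤ, ex (f k) t * Complex.exp (Complex.I * k * x)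

end WN

end Pool.Agent.Work.MP_4a14ce_an
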