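import Pool.Agent.Work.MP_4a14ce_an.Bd.B07
import Pool.Agent.Work.MP_4a14ce_an.Bd.B04
import Pool.Agent.Work.MP_4a14ce_an.Bd.B05

/-!
# Uniqueness of the elastic flow on bounded time intervals
-/

open Set MeasureTheory Topology Filter
open scoped ContDiff

namespace Pool.Agent.Work.MP_4a14ce_an

/-- jointly continuous periodic functions are bounded on bounded time intervals -/
theorem lu_bd {T : ℝ} {f : ℝ → ℝ → ℝ} (hf : JS (Icc 0 T) f)
    (hper : ∀ t ∈ Icc 0 T, Function.Periodic (f t) (2 * Real.pi)) :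
    ∃ M : ℝ, 0 ≤ M ∧ ∀ t ∈ Icc 0 T, ∀ y, |f t y| ≤ M := by
  have hpi : (0 : ℝ) < 2 * Real.pi := by positivity
  have hc : IsCompact (Icc 0 T ×ˢ Icc 0 (2 * Real.pi)) := isCompact_Icc.prod isCompact_Icc
  have hcont : ContinuousOn (fun z : ℝ × ℝ => f z.1 z.2) (Icc 0 T ×ˢ Icc 0 (2 * Real.pi)) :=
    (ContDiffOn.continuousOn hf).mono (prod_mono Subset.rfl (subset_univ _))
  obtain ⟨C, hC⟩ := hc.exists_bound_of_continuousOn hcont
  refine ⟨max C 0, le_max_right _ _, fun t ht y => ?_⟩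
  have h1 := hper t ht
  have h2 : toIcoMod hpi 0 y = y - toIcoDiv hpi 0 y • (2 * Real.pi) := rfl
  have h3 : f t y = f t (toIcoMod hpi 0 y) := by rw [h2, h1.sub_zsmul_eq]
  have h4 := toIcoMod_mem_Ico hpi 0 y
  rw [zero_add] at h4
  rw [h3, ← Real.norm_eq_abs]
  exact (hC (t, toIcoMod hpi 0 y) ⟨ht, h4.1, h4.2.le⟩).trans (le_max_left _ _)

/-- uniqueness for the characteristic equation on a bounded interval -/
theorem lu_ode (hS : JSSlice1) {T : ℝ} (hT : 0 < T) {b : ℝ → ℝ → ℝ} (hb : JS (Icc 0 T) b)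
    (hper : ∀ t ∈ Icc 0 T, Function.Periodic (b t) (2 * Real.pi)) {y z : ℝ → ℝ}
    (hy : ∀ t ∈ Icc 0 T, HasDerivWithinAt y (- b t (y t)) (Icc 0 T) t)
    (hz : ∀ t ∈ Icc 0 T, HasDerivWithinAt z (- b t (z t)) (Icc 0 T) t) (h0 : y 0 = z 0) :
    ∀ t ∈ Icc 0 T, y t = z t := by
  have hitv : Itv (Icc 0 T) := Or.inr ⟨0, T, hT, rfl⟩
  have hsl := hS (Icc 0 T) b hitv hb
  obtain ⟨M, hM, hbd⟩ := lu_bd (hsl.2 1) (fun t ht => ode_per (hper t ht) 1)
  have hlip : ∀ t ∈ Icc 0 T, LipschitzWith (Real.toNNReal M) (b t) := fun t ht =>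
    ode_lip (hsl.1 t ht) hM (hbd t ht)
  intro t ht
  have h1 := ode_dist (b := b) hM hlip (fun s hs => (hy s hs).continuousWithinAt)
    (fun s hs => (hz s hs).continuousWithinAt)
    (fun s hs => (hy s ⟨hs.1, hs.2.le⟩).mono_of_mem_nhdsWithin (Icc_mem_nhdsGE_of_mem hs))
    (fun s hs => (hz s ⟨hs.1, hs.2.le⟩).mono_of_mem_nhdsWithin (Icc_mem_nhdsGE_of_mem hs)) t ht
  rw [h0, sub_self, abs_zero, zero_mul] at h1
  have h2 := abs_nonneg (y t - z t)
  have h3 : |y t - z t| = 0 := le_antisymm h1 h2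
  exact sub_eq_zero.1 (abs_eq_zero.1 h3)

/-- uniqueness on a compact interval -/
theorem lu_icc (hTU : ClaimTUniqueI) (hFT : ClaimFlowToTI) (hSl1 : JSSlice1)
    (hSl : JSSlice) (hDt : JSDt1) (hJP : JSPer) (hInt : JSInt0x)
    {n : ℕ} {σ : ℝ} (hσ : Sgn σ) {T : ℝ} (hT0 : 0 < T) {γ₀ : ℝ → V n}
    {γ γ' : ℝ → ℝ → V n} (hγ : FlowI σ (Icc 0 T) γ₀ γ) (hγ' : FlowI σ (Icc 0 T) γ₀ γ') :
    ∀ t ∈ Icc (0 : ℝ) T, γ' t = γ t := by
  have hI : Itv (Icc (0 : ℝ) T) := Or.inr ⟨0, T, hT0, rfl⟩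
  have hU : UniqueDiffOn ℝ (Icc 0 T) := uniqueDiffOn_Icc hT0
  obtain ⟨X, p, hT, hX, hY⟩ := hFT n σ (Icc 0 T) γ₀ γ hσ hI hU hγ
  obtain ⟨X', p', hT', hX', hY'⟩ := hFT n σ (Icc 0 T) γ₀ γ' hσ hI hU hγ'
  have h0 : (0 : ℝ) ∈ Icc (0 : ℝ) T := ⟨le_rfl, hT0.le⟩
  have hX0 : X 0 = X' 0 := by
    funext y
    have h1 := (hX 0 h0 (X' 0 y)).1
    have h2 := (hX' 0 h0 y).2
    rw [hγ.start] at h1
    rw [hγ'.start] at h2
    rw [h2] at h1
    exact h1
  have hu0 : (fun y => γ 0 (X 0 y)) = (fun y => γ' 0 (X' 0 y)) := by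
    rw [hγ.start, hγ'.start, hX0]
  have hu := hTU n σ T _ _ p p' hσ hT0 hT hT' hu0
  set b : ℝ → ℝ → ℝ := fun t y => (p t ^ 2)⁻¹ * xi σ (p t) (p t)⁻¹ (fun z => γ t (X t z)) y
    with hb
  have hbJ : JS (Icc 0 T) b := ttf_b_JS hSl hDt hJP hInt hI hT.smooth hT.psmooth
    fun t ht => (hT.con t ht).pos
  have hbP : ∀ t ∈ Icc (0:ℝ) T, Function.Periodic (b t) (2 * Real.pi) := by
    intro t ht x
    have := ttf_xi_per (σ := σ) (P := p t) (m := (p t)⁻¹) (hT.con t ht).smooth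
      (hT.con t ht).periodic x
    simp only [hb, this]
  have hYe : ∀ t ∈ Icc (0 : ℝ) T, arcY σ (γ t) = arcY σ (γ' t) := by
    intro t ht
    funext x
    refine lu_ode hSl1 hT0 hbJ hbP (y := fun s => arcY σ (γ s) x)
      (z := fun s => arcY σ (γ' s) x) ?_ ?_ ?_ t ht
    · intro s hs
      exact hY s hs x
    · intro s hs
      have h := hY' s hs x
      obtain ⟨e1, e2⟩ := hu s hs
      simp only [hb]
      have e1' : (fun z => γ' s (X' s z)) = (fun z => γ s (X s z)) := e1.symm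
      rw [e1', ← e2] at h
      exact h
    · show arcY σ (γ 0) x = arcY σ (γ' 0) x
      rw [hγ.start, hγ'.start]
  intro t ht
  funext x
  obtain ⟨e1, -⟩ := hu t ht
  have h1 := (hX t ht x).1
  have h2 := (hX' t ht x).1
  have h3 : γ t (X t (arcY σ (γ t) x)) = γ' t (X' t (arcY σ (γ t) x)) :=
    congrFun e1 (arcY σ (γ t) x)
  rw [h1] at h3
  rw [hYe t ht, h2] at h3
  exact h3.symm

/-- restriction of a flow to a smaller interval -/
theorem FlowI.restrict {σ : ℝ} {n : ℕ} {I J : Set ℝ} {γ₀ : ℝ → V n} {γ : ℝ → ℝ → V n}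
    (h : FlowI σ I γ₀ γ) (hJ : J ⊆ I) (hU : UniqueDiffOn ℝ J) : FlowI σ J γ₀ γ where
  smooth := h.smooth.mono (prod_mono hJ Subset.rfl)
  closed := fun t ht => h.closed t (hJ ht)
  start := h.start
  flow := by
    intro t ht
    have h1 := h.flow t (hJ ht)
    have h2 : (fun x => - derivWithin (fun s => γ s x) J t) =
        fun x => - derivWithin (fun s => γ s x) I t := by
      funext x
      have h3 : DifferentiableWithinAt ℝ (fun z : ℝ × ℝ => γ z.1 z.2) (I ×ˢ univ) (t, x) :=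
        (h.smooth (t, x) ⟨hJ ht, mem_univ _⟩).differentiableWithinAt (by simp)
      have h4 : DifferentiableWithinAt ℝ (fun r : ℝ => ((r, x) : ℝ × ℝ)) I t := by fun_prop
      have hm : MapsTo (fun r : ℝ => ((r, x) : ℝ × ℝ)) I (I ×ˢ univ) :=
        fun r hr => ⟨hr, mem_univ _⟩
      have h5 : DifferentiableWithinAt ℝ (fun s => γ s x) I t :=
        DifferentiableWithinAt.comp (g := fun z : ℝ × ℝ => γ z.1 z.2)
          (f := fun r : ℝ => ((r, x) : ℝ × ℝ)) t h3 h4 hm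
      rw [(h5.hasDerivWithinAt.mono hJ).derivWithin (hU t ht)]
    rw [h2]
    exact h1

theorem aArcI : ClaimArcI := claimArcI aInt aJP bRules claimTan

theorem aFlowToTI : ClaimFlowToTI :=
  claimFlowToTI aArcI aGradCon claimGradRep aGradUnique claimXi claimVelTan claimEnergyForm
    jsSlice jsSlice1 jsDt jsDt1 jsComp

theorem aTUniqueI : ClaimTUniqueI :=
  claimTUniqueI aUnique claimTimeIcc claimXi claimVelTan conIds bRules jsSlice jsDt

/-- every elastic flow on `[0, T)` is the restriction of the elastic flow on `[0, ∞)` -/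
theorem localUnique : ∀ (n : ℕ) (σ : ℝ), Sgn σ → LU σ n := by
  intro n σ hσ γ₀ γ hγ T γ' hT hγ' t ht
  rcases eq_or_lt_of_le ht.1 with h0 | h0
  · rw [← h0, hγ.start, hγ'.start]
  · have F1 : FlowI σ (Ici 0) γ₀ γ := ⟨hγ.smooth, hγ.closed, hγ.start, hγ.flow⟩
    have F2 : FlowI σ (Ico 0 T) γ₀ γ' := ⟨hγ'.smooth, hγ'.closed, hγ'.start, hγ'.flow⟩
    have hU : UniqueDiffOn ℝ (Icc 0 t) := uniqueDiffOn_Icc h0
    exact lu_icc aTUniqueI aFlowToTI jsSlice1 jsSlice jsDt1 aJP aInt hσ h0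
      (F1.restrict Icc_subset_Ici_self hU) (F2.restrict (Icc_subset_Ico_right ht.2) hU) t
      ⟨h0.le, le_rfl⟩

end Pool.Agent.Work.MP_4a14ce_an
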