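import Pool.Agent.Work.MP_4a14ce_an.Bd.B01

/-!
# The semilinear uniqueness lemma (ClaimUniq0)
-/

open Set MeasureTheory Topology Filter
open scoped ContDiff

namespace Pool.Agent.Work.MP_4a14ce_an

/-! ### integrals over a period -/

theorem uniq0_two_pi : (0 : ℝ) ≤ 2 * Real.pi := by positivity

theorem uniq0_per_nonneg {f : ℝ → ℝ} (h : ∀ x, 0 ≤ f x) : 0 ≤ per f :=
  intervalIntegral.integral_nonneg uniq0_two_pi fun x _ => h x

theorem uniq0_per_mono {f g : ℝ → ℝ} (hf : Continuous f) (hg : Continuous g)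
    (h : ∀ x, f x ≤ g x) : per f ≤ per g :=
  intervalIntegral.integral_mono uniq0_two_pi (hf.intervalIntegrable _ _)
    (hg.intervalIntegrable _ _) h

theorem uniq0_per_add {f g : ℝ → ℝ} (hf : Continuous f) (hg : Continuous g) :
    per (fun x => f x + g x) = per f + per g :=
  intervalIntegral.integral_add (hf.intervalIntegrable _ _) (hg.intervalIntegrable _ _)

theorem uniq0_per_mul (c : ℝ) (f : ℝ → ℝ) : per (fun x => c * f x) = c * per f :=
  intervalIntegral.integral_const_mul _ _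

theorem uniq0_per_const (c : ℝ) : per (fun _ => c) = 2 * Real.pi * c := by
  unfold per
  rw [intervalIntegral.integral_const, sub_zero, smul_eq_mul]

/-! ### periodicity and derivatives -/

theorem uniq0_periodic_deriv {f : ℝ → ℝ} {c : ℝ} (h : Function.Periodic f c) :
    Function.Periodic (deriv f) c := by
  intro x
  have h1 : (fun y => f (y + c)) = f := funext h
  calc deriv f (x + c) = deriv (fun y => f (y + c)) x := (deriv_comp_add_const f c x).symm
    _ = deriv f x := by rw [h1]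

theorem uniq0_periodic_iter {f : ℝ → ℝ} {c : ℝ} (h : Function.Periodic f c) (j : ℕ) :
    Function.Periodic (iteratedDeriv j f) c := by
  induction j with
  | zero => rw [iteratedDeriv_zero]; exact h
  | succ j ih => rw [iteratedDeriv_succ]; exact uniq0_periodic_deriv ih

theorem uniq0_smooth_iter {f : ℝ → ℝ} (hf : ContDiff ℝ ∞ f) (j : ℕ) :
    ContDiff ℝ ∞ (iteratedDeriv j f) := by
  induction j with
  | zero => rw [iteratedDeriv_zero]; exact hf
  | succ j ih =>
    rw [iteratedDeriv_succ]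
    exact ih.deriv'

theorem uniq0_c1 {f : ℝ → ℝ} (hf : ContDiff ℝ ∞ f) : ContDiff ℝ 1 f := hf.of_le (by simp)

theorem uniq0_c2 {f : ℝ → ℝ} (hf : ContDiff ℝ ∞ f) : ContDiff ℝ 2 f :=
  contDiff_infty.1 hf 2

theorem uniq0_iter_add (f : ℝ → ℝ) (j : ℕ) :
    deriv (iteratedDeriv j f) = iteratedDeriv (j + 1) f := by
  rw [iteratedDeriv_succ]

theorem uniq0_iter2 (f : ℝ → ℝ) (j : ℕ) :
    iteratedDeriv 2 (iteratedDeriv j f) = iteratedDeriv (j + 2) f := by
  rw [iteratedDeriv_succ, iteratedDeriv_one, ← iteratedDeriv_succ, ← iteratedDeriv_succ]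

/-- Components of iterated derivatives. -/
theorem uniq0_comp {k : ℕ} {u : ℝ → Fin k → ℝ} (hu : ContDiff ℝ ∞ u) (i : Fin k) (j : ℕ) (x : ℝ) :
    iteratedDeriv j (fun y => u y i) x = iteratedDeriv j u x i := by
  induction j generalizing x with
  | zero => simp [iteratedDeriv_zero]
  | succ j ih =>
    rw [iteratedDeriv_succ, iteratedDeriv_succ]
    have h1 : iteratedDeriv j (fun y => u y i) = fun y => iteratedDeriv j u y i := funext ih
    rw [h1]
    have h2 : DifferentiableAt ℝ (iteratedDeriv j u) x := by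
      apply (hu.differentiable_iteratedDeriv j _) x
      exact_mod_cast ENat.natCast_lt_top j
    exact (hasDerivAt_pi.1 h2.hasDerivAt i).deriv

/-! ### pointwise bounds -/

theorem uniq0_sup (hSup : SupLe) (hAg : Agmon) (hInt : PerInterp) {f : ℝ → ℝ}
    (hf : ContDiff ℝ ∞ f) (hp : Function.Periodic f (2 * Real.pi)) {δ : ℝ} (hδ : 0 < δ)
    (hδ1 : δ ≤ 1) (x0 x1 x2 x3 : ℝ) :
    f x0 ^ 2 + iteratedDeriv 1 f x1 ^ 2 + iteratedDeriv 2 f x2 ^ 2 + iteratedDeriv 3 f x3 ^ 2 ≤
      4 * δ * per (fun x => iteratedDeriv 4 f x ^ 2) +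
        11 / δ ^ 3 * (per (fun x => f x ^ 2) + per (fun x => iteratedDeriv 2 f x ^ 2)) := by
  set a0 := per (fun x => f x ^ 2) with ha0
  set a1 := per (fun x => iteratedDeriv 1 f x ^ 2) with ha1
  set a2 := per (fun x => iteratedDeriv 2 f x ^ 2) with ha2
  set a3 := per (fun x => iteratedDeriv 3 f x ^ 2) with ha3
  set a4 := per (fun x => iteratedDeriv 4 f x ^ 2) with ha4
  have h0 : 0 ≤ a0 := uniq0_per_nonneg fun x => sq_nonneg _
  have h1 : 0 ≤ a1 := uniq0_per_nonneg fun x => sq_nonneg _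
  have h2 : 0 ≤ a2 := uniq0_per_nonneg fun x => sq_nonneg _
  have h3 : 0 ≤ a3 := uniq0_per_nonneg fun x => sq_nonneg _
  have h4 : 0 ≤ a4 := uniq0_per_nonneg fun x => sq_nonneg _
  have hs : ∀ j, ContDiff ℝ ∞ (iteratedDeriv j f) := uniq0_smooth_iter hf
  have hsp : ∀ j, Function.Periodic (iteratedDeriv j f) (2 * Real.pi) := uniq0_periodic_iter hp
  -- sup bounds
  have b0 : f x0 ^ 2 ≤ 2 * (a0 + a1) := by
    have := hSup f (uniq0_c1 hf) hp x0
    rw [ha0, ha1, iteratedDeriv_one]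
    exact this
  have b1 : iteratedDeriv 1 f x1 ^ 2 ≤ 2 * (a1 + a2) := by
    have := hSup (iteratedDeriv 1 f) (uniq0_c1 (hs 1)) (hsp 1) x1
    rw [uniq0_iter_add] at this
    exact this
  have b2 : iteratedDeriv 2 f x2 ^ 2 ≤ 2 * (a2 + a3) := by
    have := hSup (iteratedDeriv 2 f) (uniq0_c1 (hs 2)) (hsp 2) x2
    rw [uniq0_iter_add] at this
    exact this
  have b3 : (iteratedDeriv 3 f x3 ^ 2) ^ 2 ≤ 4 * (a3 * a4) := by
    have := hAg (iteratedDeriv 2 f) (uniq0_c2 (hs 2)) (hsp 2) x3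
    rw [uniq0_iter_add, uniq0_iter2] at this
    calc (iteratedDeriv 3 f x3 ^ 2) ^ 2 = iteratedDeriv 3 f x3 ^ 4 := by ring
      _ ≤ _ := this
  have i1 : a1 ^ 2 ≤ a0 * a2 := by
    have := hInt f (uniq0_c2 hf) hp
    rw [ha1, iteratedDeriv_one]
    exact this
  have i3 : a3 ^ 2 ≤ a2 * a4 := by
    have := hInt (iteratedDeriv 2 f) (uniq0_c2 (hs 2)) (hsp 2)
    rw [uniq0_iter_add, uniq0_iter2] at this
    exact this
  -- elementary inequalities
  have j1 : a1 ≤ a0 + a2 := by nlinarith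
  have j3 : a3 ≤ δ * a4 + a2 / δ := by
    have e1 : 0 ≤ δ * a4 + a2 / δ := by positivity
    apply abs_le_of_sq_le_sq' _ e1 |>.2
    have e2 : (δ * a4 + a2 / δ) ^ 2 = (δ * a4 - a2 / δ) ^ 2 + 4 * (a2 * a4) := by
      field_simp
      ring
    nlinarith [sq_nonneg (δ * a4 - a2 / δ), mul_nonneg h2 h4]
  have j4 : iteratedDeriv 3 f x3 ^ 2 ≤ δ * a4 + a3 / δ := by
    have e1 : 0 ≤ δ * a4 + a3 / δ := by positivity
    apply abs_le_of_sq_le_sq' _ e1 |>.2
    have e2 : (δ * a4 + a3 / δ) ^ 2 = (δ * a4 - a3 / δ) ^ 2 + 4 * (a3 * a4) := by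
      field_simp
      ring
    nlinarith [sq_nonneg (δ * a4 - a3 / δ), mul_nonneg h3 h4]
  have j5 : a3 / δ ≤ δ * a4 + a2 / δ ^ 3 := by
    have e1 : 0 ≤ δ * a4 + a2 / δ ^ 3 := by positivity
    apply abs_le_of_sq_le_sq' _ e1 |>.2
    have e2 : (δ * a4 + a2 / δ ^ 3) ^ 2 = (δ * a4 - a2 / δ ^ 3) ^ 2 + 4 * (a2 * a4) / δ ^ 2 := by
      field_simp
      ring
    have e3 : (a3 / δ) ^ 2 ≤ (a2 * a4) / δ ^ 2 := by
      rw [div_pow]
      exact div_le_div_of_nonneg_right i3 (by positivity)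
    have e4 : 0 ≤ (a2 * a4) / δ ^ 2 := by positivity
    have e5 : 4 * (a2 * a4) / δ ^ 2 = 4 * ((a2 * a4) / δ ^ 2) := by ring
    nlinarith [sq_nonneg (δ * a4 - a2 / δ ^ 3)]
  have k1 : 1 ≤ 1 / δ ^ 3 := by
    rw [le_div_iff₀ (by positivity), one_mul]
    exact pow_le_one₀ hδ.le hδ1
  have k2 : a2 / δ ≤ 1 / δ ^ 3 * a2 := by
    rw [div_mul_eq_mul_div, one_mul]
    apply div_le_div_of_nonneg_left h2 (by positivity)
    calc δ ^ 3 = δ * δ ^ 2 := by ring
      _ ≤ δ * 1 := mul_le_mul_of_nonneg_left (pow_le_one₀ hδ.le hδ1) hδ.le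
      _ = δ := mul_one δ
  have k3 : a2 / δ ^ 3 = 1 / δ ^ 3 * a2 := by ring
  have k4 : a0 ≤ 1 / δ ^ 3 * a0 := le_mul_of_one_le_left h0 k1
  have k5 : a2 ≤ 1 / δ ^ 3 * a2 := le_mul_of_one_le_left h2 k1
  have k6 : 11 / δ ^ 3 * (a0 + a2) = 11 * (1 / δ ^ 3 * a0) + 11 * (1 / δ ^ 3 * a2) := by ring
  rw [k6]
  have k7 : 0 ≤ 1 / δ ^ 3 * a0 := by positivity
  have k8 : 0 ≤ 1 / δ ^ 3 * a2 := by positivity
  linarith

/-! ### evolution of one component -/

theorem uniq0_js_mul {I : Set ℝ} {f g : ℝ → ℝ → ℝ} (hf : JS I f) (hg : JS I g) :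
    JS I (fun t x => f t x * g t x) := ContDiffOn.mul hf hg

theorem uniq0_scalar (hSl : JSSlice1) (hDt : JSDt1) (hPer : JSPer) (hIbp : PerIbp) {T : ℝ}
    (hT : 0 < T) {W Wt : ℝ → ℝ → ℝ} (hW : JS (Icc 0 T) W)
    (hper : ∀ t ∈ Icc 0 T, Function.Periodic (W t) (2 * Real.pi))
    (hWt : ∀ t ∈ Icc 0 T, ∀ x, HasDerivWithinAt (fun s => W s x) (Wt t x) (Icc 0 T) t)
    {D : ℝ → ℝ} (hD : ∀ t ∈ Icc 0 T, ∀ x, |Wt t x + 2 * iteratedDeriv 4 (W t) x| ≤ D t) :
    ∃ e : ℝ → ℝ, ∀ t ∈ Icc 0 T, HasDerivWithinAt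
      (fun s => per (fun x => W s x ^ 2) + per (fun x => iteratedDeriv 2 (W s) x ^ 2)) (e t)
        (Icc 0 T) t ∧
      e t ≤ per (fun x => W t x ^ 2) + 4 * Real.pi * D t ^ 2 -
        3 * per (fun x => iteratedDeriv 4 (W t) x ^ 2) := by
  have hI : Itv (Icc 0 T) := Or.inr ⟨0, T, hT, rfl⟩
  obtain ⟨hWs, hWj⟩ := hSl _ W hI hW
  obtain ⟨U, hU, hUj⟩ := hDt _ W hI hW
  obtain ⟨hUs, hUjs⟩ := hSl _ U hI hU
  have hud : UniqueDiffOn ℝ (Icc 0 T) := uniqueDiffOn_Icc hT
  -- the time derivative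
  have hUW : ∀ t ∈ Icc 0 T, ∀ x, U t x = Wt t x := by
    intro t ht x
    have h1 := hUj 0 t ht x
    simp only [iteratedDeriv_zero] at h1
    exact (hud t ht).eq_deriv _ h1 (hWt t ht x)
  have hUper : ∀ t ∈ Icc 0 T, Function.Periodic (U t) (2 * Real.pi) := by
    intro t ht x
    have h1 := hUj 0 t ht x
    have h2 := hUj 0 t ht (x + 2 * Real.pi)
    simp only [iteratedDeriv_zero] at h1 h2
    have h3 : HasDerivWithinAt (fun s => W s x) (U t (x + 2 * Real.pi)) (Icc 0 T) t := by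
      refine h2.congr (fun s hs => ?_) ?_
      · exact (hper s hs x).symm
      · exact (hper t ht x).symm
    exact (hud t ht).eq_deriv _ h3 h1
  -- derivatives of the two integrals
  have hd0 : ∀ t ∈ Icc 0 T, HasDerivWithinAt (fun s => per (fun x => W s x * W s x))
      (per (fun x => U t x * W t x + W t x * U t x)) (Icc 0 T) t := by
    have h1 := hPer (Icc 0 T) (fun t x => W t x * W t x) (fun t x => U t x * W t x + W t x * U t x)
      hI (uniq0_js_mul hW hW) ((uniq0_js_mul hU hW).add (uniq0_js_mul hW hU)) (by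
        intro t ht x
        have h2 := hUj 0 t ht x
        simp only [iteratedDeriv_zero] at h2
        exact h2.mul h2)
    exact h1.2
  have hd2 : ∀ t ∈ Icc 0 T, HasDerivWithinAt
      (fun s => per (fun x => iteratedDeriv 2 (W s) x * iteratedDeriv 2 (W s) x))
      (per (fun x => iteratedDeriv 2 (U t) x * iteratedDeriv 2 (W t) x +
        iteratedDeriv 2 (W t) x * iteratedDeriv 2 (U t) x)) (Icc 0 T) t := by
    have h1 := hPer (Icc 0 T) (fun t x => iteratedDeriv 2 (W t) x * iteratedDeriv 2 (W t) x)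
      (fun t x => iteratedDeriv 2 (U t) x * iteratedDeriv 2 (W t) x +
        iteratedDeriv 2 (W t) x * iteratedDeriv 2 (U t) x)
      hI (uniq0_js_mul (hWj 2) (hWj 2))
      ((uniq0_js_mul (hUjs 2) (hWj 2)).add (uniq0_js_mul (hWj 2) (hUjs 2))) (by
        intro t ht x
        have h2 := hUj 2 t ht x
        exact h2.mul h2)
    exact h1.2
  refine ⟨fun t => per (fun x => U t x * W t x + W t x * U t x) +
    per (fun x => iteratedDeriv 2 (U t) x * iteratedDeriv 2 (W t) x +
        iteratedDeriv 2 (W t) x * iteratedDeriv 2 (U t) x), fun t ht => ⟨?_, ?_⟩⟩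
  · have h1 := (hd0 t ht).add (hd2 t ht)
    simp only [pow_two]
    exact h1
  · -- integration by parts
    have cW : ∀ j, ContDiff ℝ ∞ (iteratedDeriv j (W t)) := uniq0_smooth_iter (hWs t ht)
    have cU : ∀ j, ContDiff ℝ ∞ (iteratedDeriv j (U t)) := uniq0_smooth_iter (hUs t ht)
    have pW : ∀ j, Function.Periodic (iteratedDeriv j (W t)) (2 * Real.pi) :=
      uniq0_periodic_iter (hper t ht)
    have pU : ∀ j, Function.Periodic (iteratedDeriv j (U t)) (2 * Real.pi) :=
      uniq0_periodic_iter (hUper t ht)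
    have hcW : ∀ j, Continuous (iteratedDeriv j (W t)) := fun j => (cW j).continuous
    have hcU : ∀ j, Continuous (iteratedDeriv j (U t)) := fun j => (cU j).continuous
    have hcW0 : Continuous (W t) := (hWs t ht).continuous
    have hcU0 : Continuous (U t) := (hUs t ht).continuous
    -- two integrations by parts
    have hib : ∀ f : ℝ → ℝ, ContDiff ℝ ∞ f → Function.Periodic f (2 * Real.pi) →
        per (fun x => iteratedDeriv 2 f x * iteratedDeriv 2 (W t) x) =
          per (fun x => f x * iteratedDeriv 4 (W t) x) := by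
      intro f hf hfp
      have h1 := hIbp (iteratedDeriv 1 f) (iteratedDeriv 2 (W t))
        (uniq0_c1 (uniq0_smooth_iter hf 1)) (uniq0_c1 (cW 2)) (uniq0_periodic_iter hfp 1) (pW 2)
      rw [uniq0_iter_add, uniq0_iter_add] at h1
      have h2 := hIbp f (iteratedDeriv 3 (W t)) (uniq0_c1 hf) (uniq0_c1 (cW 3)) hfp (pW 3)
      rw [uniq0_iter_add] at h2
      rw [← iteratedDeriv_one] at h2
      rw [h1, h2, neg_neg]
    set r : ℝ → ℝ := fun x => U t x + 2 * iteratedDeriv 4 (W t) x with hr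
    have hrc : Continuous r := hcU0.add (continuous_const.mul (hcW 4))
    have hrD : ∀ x, r x ^ 2 ≤ D t ^ 2 := by
      intro x
      have h1 := hD t ht x
      rw [← hUW t ht x] at h1
      rw [← sq_abs]
      exact pow_le_pow_left₀ (abs_nonneg _) h1 2
    have hUr : ∀ x, U t x = r x - 2 * iteratedDeriv 4 (W t) x := by
      intro x
      simp only [hr]
      ring
    set a0 := per (fun x => W t x ^ 2) with ha0
    set a2 := per (fun x => iteratedDeriv 2 (W t) x ^ 2) with ha2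
    set a4 := per (fun x => iteratedDeriv 4 (W t) x ^ 2) with ha4
    have hrr : per (fun x => r x ^ 2) ≤ 2 * Real.pi * D t ^ 2 := by
      rw [← uniq0_per_const]
      exact uniq0_per_mono (hrc.pow 2) continuous_const hrD
    have ha2n : 0 ≤ a2 := uniq0_per_nonneg fun x => sq_nonneg _
    -- first term
    have t0 : per (fun x => U t x * W t x + W t x * U t x) ≤
        a0 + 2 * Real.pi * D t ^ 2 - 4 * a2 := by
      have h1 : per (fun x => U t x * W t x + W t x * U t x) ≤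
          per (fun x => (W t x ^ 2 + r x ^ 2) + (-4) * (W t x * iteratedDeriv 4 (W t) x)) := by
        apply uniq0_per_mono
        · exact (hcU0.mul hcW0).add (hcW0.mul hcU0)
        · exact ((hcW0.pow 2).add (hrc.pow 2)).add (continuous_const.mul (hcW0.mul (hcW 4)))
        · intro x
          rw [hUr x]
          nlinarith [sq_nonneg (W t x - r x)]
      have h2 : per (fun x => W t x * iteratedDeriv 4 (W t) x) = a2 := by
        rw [← hib (W t) (hWs t ht) (hper t ht), ha2]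
        simp only [pow_two]
      rw [uniq0_per_add (f := fun x => W t x ^ 2 + r x ^ 2)
        (g := fun x => (-4) * (W t x * iteratedDeriv 4 (W t) x)) ((hcW0.pow 2).add (hrc.pow 2))
        (continuous_const.mul (hcW0.mul (hcW 4))),
        uniq0_per_add (f := fun x => W t x ^ 2) (g := fun x => r x ^ 2) (hcW0.pow 2) (hrc.pow 2),
        uniq0_per_mul, h2] at h1
      linarith
    -- second term
    have t2 : per (fun x => iteratedDeriv 2 (U t) x * iteratedDeriv 2 (W t) x +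
        iteratedDeriv 2 (W t) x * iteratedDeriv 2 (U t) x) ≤
        2 * Real.pi * D t ^ 2 - 3 * a4 := by
      have h1 : per (fun x => iteratedDeriv 2 (U t) x * iteratedDeriv 2 (W t) x +
          iteratedDeriv 2 (W t) x * iteratedDeriv 2 (U t) x) =
          2 * per (fun x => U t x * iteratedDeriv 4 (W t) x) := by
        rw [← hib (U t) (hUs t ht) (hUper t ht), ← uniq0_per_mul]
        congr 1
        funext x
        ring
      have h2 : per (fun x => U t x * iteratedDeriv 4 (W t) x) ≤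
          per (fun x => (1 / 2) * r x ^ 2 + (-(3 / 2)) * iteratedDeriv 4 (W t) x ^ 2) := by
        apply uniq0_per_mono
        · exact hcU0.mul (hcW 4)
        · exact (continuous_const.mul (hrc.pow 2)).add (continuous_const.mul ((hcW 4).pow 2))
        · intro x
          rw [hUr x]
          nlinarith [sq_nonneg (iteratedDeriv 4 (W t) x - r x)]
      rw [uniq0_per_add (f := fun x => (1 / 2) * r x ^ 2)
        (g := fun x => (-(3 / 2)) * iteratedDeriv 4 (W t) x ^ 2) (continuous_const.mul (hrc.pow 2))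
        (continuous_const.mul ((hcW 4).pow 2)), uniq0_per_mul, uniq0_per_mul] at h2
      rw [h1]
      linarith
    linarith

theorem uniq0_norm_sq {l : ℕ} (v : Fin l → ℝ) : ‖v‖ ^ 2 ≤ ∑ j, v j ^ 2 := by
  have h0 : 0 ≤ ∑ j, v j ^ 2 := Finset.sum_nonneg fun j _ => sq_nonneg _
  have h1 : ‖v‖ ≤ Real.sqrt (∑ j, v j ^ 2) := by
    rw [pi_norm_le_iff_of_nonneg (Real.sqrt_nonneg _)]
    intro j
    rw [Real.norm_eq_abs]
    apply Real.abs_le_sqrt
    exact Finset.single_le_sum (f := fun j => v j ^ 2) (fun i _ => sq_nonneg _)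
      (Finset.mem_univ j)
  calc ‖v‖ ^ 2 ≤ (Real.sqrt (∑ j, v j ^ 2)) ^ 2 := pow_le_pow_left₀ (norm_nonneg _) h1 2
    _ = _ := Real.sq_sqrt h0

theorem uniq0_zero (hSup : SupLe) (hInt : PerInterp) {f : ℝ → ℝ}
    (hf : ContDiff ℝ ∞ f) (hp : Function.Periodic f (2 * Real.pi))
    (h : per (fun x => f x ^ 2) + per (fun x => iteratedDeriv 2 f x ^ 2) ≤ 0) (x : ℝ) :
    f x = 0 := by
  have h2 : 0 ≤ per (fun x => f x ^ 2) := uniq0_per_nonneg fun x => sq_nonneg _
  have h3 : 0 ≤ per (fun x => iteratedDeriv 2 f x ^ 2) := uniq0_per_nonneg fun x => sq_nonneg _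
  have h4 := hInt f (uniq0_c2 hf) hp
  have h5 := hSup f (uniq0_c1 hf) hp x
  have h6 : per (fun x => f x ^ 2) = 0 := by linarith
  rw [h6, zero_mul] at h4
  have h7 : per (fun x => deriv f x ^ 2) = 0 := by
    have := sq_nonneg (per (fun x => deriv f x ^ 2))
    exact pow_eq_zero_iff (two_ne_zero) |>.1 (le_antisymm h4 this)
  rw [h6, h7, add_zero, mul_zero] at h5
  have h8 : f x ^ 2 = 0 := le_antisymm h5 (sq_nonneg _)
  exact pow_eq_zero_iff (two_ne_zero) |>.1 h8

set_option maxHeartbeats 1000000 in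
/-- Item A2. -/
theorem claimUniq0 (hSl : JSSlice1) (hDt : JSDt1) (hPer : JSPer) (hIbp : PerIbp)
    (hInt : PerInterp) (hAg : Agmon) (hSup : SupLe) : ClaimUniq0 := by
  intro k l T C w wt z zt S hT hw hper hwt hz hS hE hzE hw0 hz0
  have hI : Itv (Icc 0 T) := Or.inr ⟨0, T, hT, rfl⟩
  have hJc : ∀ i : Fin k, JS (Icc 0 T) (fun t x => w t x i) := fun i => (contDiffOn_pi.1 hw) i
  have hsm : ∀ t ∈ Icc 0 T, ContDiff ℝ ∞ (w t) := fun t ht =>
    contDiff_pi.2 fun i => (hSl _ _ hI (hJc i)).1 t ht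
  have hS0 : ∀ t ∈ Icc 0 T, 0 ≤ S t := by
    intro t ht
    obtain ⟨x0, x1, x2, x3, h⟩ := hS t ht
    rw [h]
    positivity
  set D : ℝ → ℝ := fun t => |C| * (S t + ‖z t‖) with hDdef
  have hCD : ∀ t ∈ Icc 0 T, C * (S t + ‖z t‖) ≤ D t := fun t ht =>
    mul_le_mul_of_nonneg_right (le_abs_self C) (by have := hS0 t ht; positivity)
  -- components
  have hcomp : ∀ i : Fin k, ∀ t ∈ Icc 0 T, ∀ j x,
      iteratedDeriv j (fun y => w t y i) x = iteratedDeriv j (w t) x i := fun i t ht j x =>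
    uniq0_comp (hsm t ht) i j x
  have hscal : ∀ i : Fin k, ∃ e : ℝ → ℝ, ∀ t ∈ Icc 0 T, HasDerivWithinAt
      (fun s => per (fun x => w s x i ^ 2) + per (fun x => iteratedDeriv 2 (fun y => w s y i) x ^ 2))
        (e t) (Icc 0 T) t ∧
      e t ≤ per (fun x => w t x i ^ 2) + 4 * Real.pi * D t ^ 2 -
        3 * per (fun x => iteratedDeriv 4 (fun y => w t y i) x ^ 2) := by
    intro i
    refine uniq0_scalar hSl hDt hPer hIbp hT (W := fun t x => w t x i)
      (Wt := fun t x => wt t x i) (hJc i) ?_ ?_ (D := D) ?_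
    · intro t ht x
      exact congrFun (hper t ht x) i
    · intro t ht x
      exact hasDerivWithinAt_pi.1 (hwt t ht x) i
    · intro t ht x
      have h1 := (hE t ht x).trans (hCD t ht)
      have h2 := norm_le_pi_norm (wt t x + (2 : ℝ) • iteratedDeriv 4 (w t) x) i
      rw [Real.norm_eq_abs, Pi.add_apply, Pi.smul_apply, smul_eq_mul] at h2
      change |wt t x i + 2 * iteratedDeriv 4 (fun y => w t y i) x| ≤ D t
      rw [hcomp i t ht 4 x]
      exact h2.trans h1
  choose e he using hscal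
  -- the energy
  set Y : ℝ → ℝ := fun t => ∑ i : Fin k, (per (fun x => w t x i ^ 2) +
    per (fun x => iteratedDeriv 2 (fun y => w t y i) x ^ 2)) + ∑ j : Fin l, z t j ^ 2 with hY
  set Y' : ℝ → ℝ := fun t => ∑ i : Fin k, e i t + ∑ j : Fin l, 2 * z t j * zt t j with hY'
  have hYd : ∀ t ∈ Icc 0 T, HasDerivWithinAt Y (Y' t) (Icc 0 T) t := by
    intro t ht
    have h1 : HasDerivWithinAt (fun t => ∑ i : Fin k, (per (fun x => w t x i ^ 2) +
        per (fun x => iteratedDeriv 2 (fun y => w t y i) x ^ 2))) (∑ i : Fin k, e i t)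
        (Icc 0 T) t := HasDerivWithinAt.fun_sum fun i _ => (he i t ht).1
    have h2 : HasDerivWithinAt (fun t => ∑ j : Fin l, z t j ^ 2)
        (∑ j : Fin l, 2 * z t j * zt t j) (Icc 0 T) t := by
      apply HasDerivWithinAt.fun_sum
      intro j _
      have h3 := hasDerivWithinAt_pi.1 (hz t ht) j
      have h4 : HasDerivWithinAt (fun s => z s j * z s j) (zt t j * z t j + z t j * zt t j)
        (Icc 0 T) t := h3.mul h3
      have h5 : 2 * z t j * zt t j = zt t j * z t j + z t j * zt t j := by ring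
      rw [h5]
      simp only [pow_two]
      exact h4
    exact h1.add h2
  -- constants
  set κ : ℝ := 4 * Real.pi * k + l with hκ
  have hκ0 : 0 ≤ κ := by positivity
  set δ : ℝ := 1 / (1 + 32 * κ * C ^ 2) with hδ
  have hden : 0 < 1 + 32 * κ * C ^ 2 := by positivity
  have hδ0 : 0 < δ := by positivity
  have hδ1 : δ ≤ 1 := by
    rw [hδ, div_le_one hden]
    have : 0 ≤ 32 * κ * C ^ 2 := by positivity
    linarith
  have hδ2 : 32 * κ * C ^ 2 * δ ≤ 1 := by
    rw [hδ, mul_one_div, div_le_one hden]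
    linarith
  set M : ℝ := 1 + 2 * κ * C ^ 2 * (44 / δ ^ 3) + 2 * κ * C ^ 2 with hM
  -- the differential inequality
  have hbound : ∀ t ∈ Icc 0 T, Y' t ≤ M * Y t := by
    intro t ht
    set A0 := ∑ i : Fin k, per (fun x => w t x i ^ 2) with hA0
    set A2 := ∑ i : Fin k, per (fun x => iteratedDeriv 2 (fun y => w t y i) x ^ 2) with hA2
    set A4 := ∑ i : Fin k, per (fun x => iteratedDeriv 4 (fun y => w t y i) x ^ 2) with hA4
    set Z := ∑ j : Fin l, z t j ^ 2 with hZ
    have hA0n : 0 ≤ A0 := Finset.sum_nonneg fun i _ => uniq0_per_nonneg fun x => sq_nonneg _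
    have hA2n : 0 ≤ A2 := Finset.sum_nonneg fun i _ => uniq0_per_nonneg fun x => sq_nonneg _
    have hA4n : 0 ≤ A4 := Finset.sum_nonneg fun i _ => uniq0_per_nonneg fun x => sq_nonneg _
    have hZn : 0 ≤ Z := Finset.sum_nonneg fun i _ => sq_nonneg _
    have hYt : Y t = A0 + A2 + Z := by
      simp only [hY]
      rw [Finset.sum_add_distrib]
    -- the sup norms
    have hS2 : S t ^ 2 ≤ 16 * δ * A4 + 44 / δ ^ 3 * (A0 + A2) := by
      obtain ⟨x0, x1, x2, x3, h⟩ := hS t ht
      have h1 : S t ^ 2 ≤ 4 * (‖w t x0‖ ^ 2 + ‖iteratedDeriv 1 (w t) x1‖ ^ 2 +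
          ‖iteratedDeriv 2 (w t) x2‖ ^ 2 + ‖iteratedDeriv 3 (w t) x3‖ ^ 2) := by
        rw [h]
        nlinarith [sq_nonneg (‖w t x0‖ - ‖iteratedDeriv 1 (w t) x1‖),
          sq_nonneg (‖w t x0‖ - ‖iteratedDeriv 2 (w t) x2‖),
          sq_nonneg (‖w t x0‖ - ‖iteratedDeriv 3 (w t) x3‖),
          sq_nonneg (‖iteratedDeriv 1 (w t) x1‖ - ‖iteratedDeriv 2 (w t) x2‖),
          sq_nonneg (‖iteratedDeriv 1 (w t) x1‖ - ‖iteratedDeriv 3 (w t) x3‖),
          sq_nonneg (‖iteratedDeriv 2 (w t) x2‖ - ‖iteratedDeriv 3 (w t) x3‖)]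
      have h2 : ‖w t x0‖ ^ 2 + ‖iteratedDeriv 1 (w t) x1‖ ^ 2 +
          ‖iteratedDeriv 2 (w t) x2‖ ^ 2 + ‖iteratedDeriv 3 (w t) x3‖ ^ 2 ≤
          ∑ i : Fin k, (w t x0 i ^ 2 + iteratedDeriv 1 (w t) x1 i ^ 2 +
            iteratedDeriv 2 (w t) x2 i ^ 2 + iteratedDeriv 3 (w t) x3 i ^ 2) := by
        rw [Finset.sum_add_distrib, Finset.sum_add_distrib, Finset.sum_add_distrib]
        exact add_le_add (add_le_add (add_le_add (uniq0_norm_sq _) (uniq0_norm_sq _))
          (uniq0_norm_sq _)) (uniq0_norm_sq _)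
      have h3 : ∑ i : Fin k, (w t x0 i ^ 2 + iteratedDeriv 1 (w t) x1 i ^ 2 +
            iteratedDeriv 2 (w t) x2 i ^ 2 + iteratedDeriv 3 (w t) x3 i ^ 2) ≤
          ∑ i : Fin k, (4 * δ * per (fun x => iteratedDeriv 4 (fun y => w t y i) x ^ 2) +
            11 / δ ^ 3 * (per (fun x => w t x i ^ 2) +
              per (fun x => iteratedDeriv 2 (fun y => w t y i) x ^ 2))) := by
        apply Finset.sum_le_sum
        intro i _
        have h4 := uniq0_sup hSup hAg hInt (f := fun y => w t y i)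
          ((hSl _ _ hI (hJc i)).1 t ht) (fun x => congrFun (hper t ht x) i) hδ0 hδ1 x0 x1 x2 x3
        rw [hcomp i t ht 1 x1, hcomp i t ht 2 x2, hcomp i t ht 3 x3] at h4
        exact h4
      have h6 : ∑ i : Fin k, (4 * δ * per (fun x => iteratedDeriv 4 (fun y => w t y i) x ^ 2) +
            11 / δ ^ 3 * (per (fun x => w t x i ^ 2) +
              per (fun x => iteratedDeriv 2 (fun y => w t y i) x ^ 2))) =
          4 * δ * A4 + 11 / δ ^ 3 * (A0 + A2) := by
        rw [Finset.sum_add_distrib, ← Finset.mul_sum, ← Finset.mul_sum,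
          Finset.sum_add_distrib]
      have h5 : 44 / δ ^ 3 * (A0 + A2) = 4 * (11 / δ ^ 3 * (A0 + A2)) := by ring
      rw [h5]
      linarith
    have hD2 : D t ^ 2 ≤ 2 * C ^ 2 * (S t ^ 2 + Z) := by
      have h1 : ‖z t‖ ^ 2 ≤ Z := uniq0_norm_sq _
      have h2 : D t ^ 2 = C ^ 2 * (S t + ‖z t‖) ^ 2 := by
        simp only [hDdef]
        rw [mul_pow, sq_abs]
      rw [h2]
      have h3 : (S t + ‖z t‖) ^ 2 ≤ 2 * (S t ^ 2 + Z) := by
        nlinarith [sq_nonneg (S t - ‖z t‖)]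
      calc C ^ 2 * (S t + ‖z t‖) ^ 2 ≤ C ^ 2 * (2 * (S t ^ 2 + Z)) :=
            mul_le_mul_of_nonneg_left h3 (sq_nonneg C)
        _ = _ := by ring
    have hD0 : 0 ≤ D t := by
      have := hS0 t ht
      simp only [hDdef]
      positivity
    -- the two sums
    have hs1 : ∑ i : Fin k, e i t ≤ A0 + 4 * Real.pi * k * D t ^ 2 - 3 * A4 := by
      calc ∑ i : Fin k, e i t ≤ ∑ i : Fin k, (per (fun x => w t x i ^ 2) +
            4 * Real.pi * D t ^ 2 -
            3 * per (fun x => iteratedDeriv 4 (fun y => w t y i) x ^ 2)) :=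
            Finset.sum_le_sum fun i _ => (he i t ht).2
        _ = _ := by
          rw [Finset.sum_sub_distrib, Finset.sum_add_distrib, Finset.sum_const, Finset.card_univ,
            Fintype.card_fin, ← Finset.mul_sum, nsmul_eq_mul]
          ring
    have hs2 : ∑ j : Fin l, 2 * z t j * zt t j ≤ Z + l * D t ^ 2 := by
      calc ∑ j : Fin l, 2 * z t j * zt t j ≤ ∑ j : Fin l, (z t j ^ 2 + D t ^ 2) := by
            apply Finset.sum_le_sum
            intro j _
            have h1 : |zt t j| ≤ D t := by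
              have := norm_le_pi_norm (zt t) j
              rw [Real.norm_eq_abs] at this
              exact this.trans ((hzE t ht).trans (hCD t ht))
            have h2 : zt t j ^ 2 ≤ D t ^ 2 := by
              rw [← sq_abs]
              exact pow_le_pow_left₀ (abs_nonneg _) h1 2
            nlinarith [sq_nonneg (z t j - zt t j)]
        _ = _ := by
          rw [Finset.sum_add_distrib, Finset.sum_const, Finset.card_univ, Fintype.card_fin,
            nsmul_eq_mul]
    have hκD : κ * D t ^ 2 ≤ A4 + 2 * κ * C ^ 2 * (44 / δ ^ 3) * (A0 + A2) +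
        2 * κ * C ^ 2 * Z := by
      have h1 : κ * D t ^ 2 ≤ κ * (2 * C ^ 2 * (16 * δ * A4 + 44 / δ ^ 3 * (A0 + A2) + Z)) := by
        apply mul_le_mul_of_nonneg_left _ hκ0
        refine hD2.trans (mul_le_mul_of_nonneg_left ?_ (by positivity))
        linarith
      have h2 : 32 * κ * C ^ 2 * δ * A4 ≤ 1 * A4 := mul_le_mul_of_nonneg_right hδ2 hA4n
      have h3 : κ * (2 * C ^ 2 * (16 * δ * A4 + 44 / δ ^ 3 * (A0 + A2) + Z)) =
          32 * κ * C ^ 2 * δ * A4 + 2 * κ * C ^ 2 * (44 / δ ^ 3) * (A0 + A2) +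
            2 * κ * C ^ 2 * Z := by ring
      linarith
    have hsum : Y' t ≤ A0 + Z - 3 * A4 + κ * D t ^ 2 := by
      simp only [hY', hκ]
      linarith
    rw [hYt, hM]
    have p1 : 0 ≤ 2 * κ * C ^ 2 * (44 / δ ^ 3) * Z := by positivity
    have p2 : 0 ≤ 2 * κ * C ^ 2 * (A0 + A2) := by positivity
    have p3 : (1 + 2 * κ * C ^ 2 * (44 / δ ^ 3) + 2 * κ * C ^ 2) * (A0 + A2 + Z) =
        (A0 + A2 + Z) + 2 * κ * C ^ 2 * (44 / δ ^ 3) * (A0 + A2) +
          2 * κ * C ^ 2 * (44 / δ ^ 3) * Z + 2 * κ * C ^ 2 * (A0 + A2) + 2 * κ * C ^ 2 * Z := by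
      ring
    rw [p3]
    linarith
  -- Gronwall
  have hY0 : Y 0 = 0 := by
    have h1 : ∀ i : Fin k, (fun y => w 0 y i) = fun _ => (0 : ℝ) := fun i => by
      funext y
      rw [hw0 y]
      rfl
    have h2 : ∀ i : Fin k, per (fun x => w 0 x i ^ 2) +
        per (fun x => iteratedDeriv 2 (fun y => w 0 y i) x ^ 2) = 0 := by
      intro i
      rw [h1 i]
      have h3 : (fun x => w 0 x i ^ 2) = fun _ => (0 : ℝ) := by
        funext x
        rw [hw0 x]
        simp
      rw [h3]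
      simp [uniq0_per_const]
    simp only [hY]
    rw [Finset.sum_eq_zero fun i _ => h2 i, hz0]
    simp
  have hgron : ∀ t ∈ Icc 0 T, Y t ≤ 0 := by
    intro t ht
    have h1 := le_gronwallBound_of_liminf_deriv_right_le (f := Y) (f' := Y') (δ := 0) (K := M)
      (ε := 0) (a := 0) (b := T) (fun s hs => (hYd s hs).continuousWithinAt) (by
        intro s hs r hr
        have h2 : HasDerivWithinAt Y (Y' s) (Ici s) s :=
          (hYd s (Ico_subset_Icc_self hs)).mono_of_mem_nhdsWithin (Icc_mem_nhdsGE_of_mem hs)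
        exact h2.liminf_right_slope_le hr) hY0.le (by
        intro s hs
        rw [add_zero]
        exact hbound s (Ico_subset_Icc_self hs)) t ht
    rwa [gronwallBound_ε0_δ0] at h1
  -- conclusion
  intro t ht
  have hYt := hgron t ht
  have hn1 : ∀ i : Fin k, 0 ≤ per (fun x => w t x i ^ 2) +
      per (fun x => iteratedDeriv 2 (fun y => w t y i) x ^ 2) := fun i =>
    add_nonneg (uniq0_per_nonneg fun x => sq_nonneg _) (uniq0_per_nonneg fun x => sq_nonneg _)
  have hs1 : 0 ≤ ∑ i : Fin k, (per (fun x => w t x i ^ 2) +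
      per (fun x => iteratedDeriv 2 (fun y => w t y i) x ^ 2)) :=
    Finset.sum_nonneg fun i _ => hn1 i
  have hs2 : 0 ≤ ∑ j : Fin l, z t j ^ 2 := Finset.sum_nonneg fun i _ => sq_nonneg _
  have hz1 : ∑ j : Fin l, z t j ^ 2 = 0 := by
    simp only [hY] at hYt
    linarith
  have hz2 : ∑ i : Fin k, (per (fun x => w t x i ^ 2) +
      per (fun x => iteratedDeriv 2 (fun y => w t y i) x ^ 2)) = 0 := by
    simp only [hY] at hYt
    linarith
  refine ⟨?_, ?_⟩
  · intro x
    funext i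
    have h1 := (Finset.sum_eq_zero_iff_of_nonneg (fun i _ => hn1 i)).1 hz2 i (Finset.mem_univ i)
    exact uniq0_zero hSup hInt ((hSl _ _ hI (hJc i)).1 t ht) (fun x => congrFun (hper t ht x) i)
      h1.le x
  · funext j
    have h1 := (Finset.sum_eq_zero_iff_of_nonneg (fun j _ => sq_nonneg (z t j))).1 hz1 j
      (Finset.mem_univ j)
    exact pow_eq_zero_iff (two_ne_zero) |>.1 h1

end Pool.Agent.Work.MP_4a14ce_an
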