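import Pool.Agent.Work.MP_4a14ce_an.Defs

/-!
# The constant speed gauge: internal definitions

`iteratedDeriv j u` is the `j`-th derivative of `u : ℝ → V n`.  `p` is the square of the speed and
`m` stands for `p⁻¹` (it is an independent unknown in the unconstrained system `Sol`).
-/

open Set MeasureTheory Topology Filter
open scoped ContDiff

namespace Pool.Agent.Work.MP_4a14ce_an

variable {n : ℕ}

/-- Sum of squares. -/
def nsq (v : V n) : ℝ := ∑ i, v i ^ 2

/-- The base point `(1, 0, ..., 0)`. -/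
def e0 (n : ℕ) : V n := Pi.single 0 1

/-- integral over one period -/
noncomputable def per (f : ℝ → ℝ) : ℝ := ∫ x in (0 : ℝ)..(2 * Real.pi), f x

noncomputable def rho (σ p : ℝ) (u : ℝ → V n) (x : ℝ) : ℝ :=
  B σ (iteratedDeriv 2 u x) (iteratedDeriv 2 u x) - σ * p ^ 2

/-- explicit derivative of `rho` in `x` -/
noncomputable def rhox (σ : ℝ) (u : ℝ → V n) (x : ℝ) : ℝ :=
  2 * B σ (iteratedDeriv 2 u x) (iteratedDeriv 3 u x)

noncomputable def eta (σ p : ℝ) (u : ℝ → V n) (x : ℝ) : ℝ :=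
  B σ (iteratedDeriv 3 u x) (iteratedDeriv 3 u x)
    - 2 * σ * p * B σ (iteratedDeriv 2 u x) (iteratedDeriv 2 u x) + p ^ 3

noncomputable def beta (σ p m : ℝ) (u : ℝ → V n) (x : ℝ) : ℝ :=
  3 * m * rho σ p u x + (2 * σ - 1) * p

noncomputable def hh (σ p m : ℝ) (u : ℝ → V n) (x : ℝ) : ℝ :=
  2 * m * eta σ p u x - 3 * m ^ 2 * rho σ p u x ^ 2 - (2 * σ - 1) * rho σ p u x

/-- mean value of `hh` -/
noncomputable def mu (σ p m : ℝ) (u : ℝ → V n) : ℝ := (2 * Real.pi)⁻¹ * per (hh σ p m u)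

noncomputable def alpha (σ p m : ℝ) (u : ℝ → V n) (x : ℝ) : ℝ :=
  -4 * m * rhox σ u x + m * rhox σ u 0 + ∫ y in (0 : ℝ)..x, (hh σ p m u y - mu σ p m u)

/-- `p²` times the (normal) velocity of the elastic flow -/
noncomputable def vel (σ p m : ℝ) (u : ℝ → V n) (x : ℝ) : V n :=
  -(2 : ℝ) • iteratedDeriv 4 u x - (2 * σ * p) • iteratedDeriv 2 u x
    - (3 * m * rhox σ u x) • iteratedDeriv 1 u x + (2 * σ * rho σ p u x) • u x
    - beta σ p m u x • (iteratedDeriv 2 u x + (σ * p) • u x)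

/-- right hand side of the semilinear equation in the constant speed gauge -/
noncomputable def rhs (σ p m : ℝ) (u : ℝ → V n) (x : ℝ) : V n :=
  -(2 : ℝ) • iteratedDeriv 4 u x - (2 * σ * p) • iteratedDeriv 2 u x
    + alpha σ p m u x • iteratedDeriv 1 u x + (2 * σ * rho σ p u x) • u x
    - beta σ p m u x • (iteratedDeriv 2 u x + (σ * p) • u x)

/-- jointly smooth on `I × ℝ` (one-sided in `t` at end points of `I`) -/
def JS {E : Type*} [NormedAddCommGroup E] [NormedSpace ℝ E] (I : Set ℝ) (u : ℝ → ℝ → E) : Prop :=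
  ContDiffOn ℝ ∞ (fun z : ℝ × ℝ => u z.1 z.2) (I ×ˢ univ)

/-- The time intervals that we use. -/
def Itv (I : Set ℝ) : Prop := (∃ a, I = Ici a) ∨ (∃ a b, a < b ∧ I = Icc a b)

/-- The unconstrained semilinear system for `(u, p, m)` on the time interval `I`. -/
structure Sol (σ : ℝ) (I : Set ℝ) (u : ℝ → ℝ → V n) (p m : ℝ → ℝ) : Prop where
  smooth : JS I u
  psmooth : ContDiffOn ℝ ∞ p I
  msmooth : ContDiffOn ℝ ∞ m I
  periodic : ∀ t ∈ I, Function.Periodic (u t) (2 * Real.pi)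
  eqn : ∀ t ∈ I, ∀ x, HasDerivWithinAt (fun s => u s x) (rhs σ (p t) (m t) (u t) x) I t
  peqn : ∀ t ∈ I, HasDerivWithinAt p (-(2 * p t * mu σ (p t) (m t) (u t))) I t
  meqn : ∀ t ∈ I, HasDerivWithinAt m (2 * m t * mu σ (p t) (m t) (u t)) I t

/-- Closed curves of constant speed `√p` in `space σ n`. -/
structure Con (σ p : ℝ) (u : ℝ → V n) : Prop where
  smooth : ContDiff ℝ ∞ u
  periodic : Function.Periodic u (2 * Real.pi)
  mem : ∀ x, u x ∈ space σ n
  speed : ∀ x, B σ (deriv u x) (deriv u x) = p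
  pos : 0 < p

/-- Constrained solutions. -/
structure CSol (σ : ℝ) (I : Set ℝ) (u : ℝ → ℝ → V n) (p : ℝ → ℝ) : Prop where
  sol : Sol σ I u p (fun t => (p t)⁻¹)
  con : ∀ t ∈ I, Con σ (p t) (u t)

/-- The energy of a constant speed curve. -/
noncomputable def en (σ p : ℝ) (u : ℝ → V n) : ℝ :=
  (p * Real.sqrt p)⁻¹ * per (fun x => B σ (iteratedDeriv 2 u x) (iteratedDeriv 2 u x))
    + 2 * Real.pi * (1 - σ) * Real.sqrt p

/-- Square of the `L²` norm of the (rescaled) velocity. -/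
noncomputable def dis (σ p : ℝ) (u : ℝ → V n) : ℝ :=
  per (fun x => B σ (vel σ p p⁻¹ u x) (vel σ p p⁻¹ u x))

/-- Linear isometries of `space σ n`. -/
structure IsIso (σ : ℝ) (g : V n →ₗ[ℝ] V n) : Prop where
  form : ∀ x y, B σ (g x) (g y) = B σ x y
  mem : ∀ x ∈ space σ n, g x ∈ space σ n

end Pool.Agent.Work.MP_4a14ce_an
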