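import Pool.Agent.Work.MP_4a14ce_an.CSF

/-!
# Claims: the interfaces between the parts of the proof
-/

open Set MeasureTheory Topology Filter
open scoped ContDiff

namespace Pool.Agent.Work.MP_4a14ce_an

/-- the sign hypothesis -/
def Sgn (σ : ℝ) : Prop := σ = 1 ∨ σ = -1

/-! ## Group W: local existence with smoothing -/

def ClaimLocal : Prop := ∀ (n : ℕ) (σ R : ℝ), Sgn σ → ∃ T > 0, ∃ C : ℕ → ℝ,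
  ∀ (u0 : ℝ → V n) (p0 m0 : ℝ), ContDiff ℝ ∞ u0 → Function.Periodic u0 (2 * Real.pi) →
    (∀ x, nsq (u0 x) ≤ R) → per (fun x => nsq (iteratedDeriv 4 u0 x)) ≤ R →
    |p0| ≤ R → |m0| ≤ R →
    ∃ (u : ℝ → ℝ → V n) (p m : ℝ → ℝ), Sol σ (Icc 0 T) u p m ∧ u 0 = u0 ∧ p 0 = p0 ∧ m 0 = m0 ∧
      ∀ j : ℕ, ∀ t ∈ Icc (T / 2) T, ∀ x, nsq (iteratedDeriv j (u t) x) ≤ C j

/-! ## Group A: the semilinear equation in physical space -/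

/-- linear parabolic differential inequality: zero initial data give zero -/
def ClaimLin : Prop := ∀ (k : ℕ) (T C : ℝ) (w wt : ℝ → ℝ → Fin k → ℝ), 0 < T →
  JS (Icc 0 T) w → (∀ t ∈ Icc 0 T, Function.Periodic (w t) (2 * Real.pi)) →
  (∀ t ∈ Icc 0 T, ∀ x, HasDerivWithinAt (fun s => w s x) (wt t x) (Icc 0 T) t) →
  (∀ t ∈ Icc 0 T, ∀ x, ‖wt t x + (2 : ℝ) • iteratedDeriv 4 (w t) x‖ ≤
    C * (‖w t x‖ + ‖iteratedDeriv 1 (w t) x‖ + ‖iteratedDeriv 2 (w t) x‖)) →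
  (∀ x, w 0 x = 0) → ∀ t ∈ Icc 0 T, ∀ x, w t x = 0

/-- semilinear uniqueness lemma (the right hand side may contain third derivatives and nonlocal
terms); `z` are additional finite dimensional unknowns -/
def ClaimUniq0 : Prop := ∀ (k l : ℕ) (T C : ℝ) (w wt : ℝ → ℝ → Fin k → ℝ) (z zt : ℝ → Fin l → ℝ)
  (S : ℝ → ℝ), 0 < T →
  JS (Icc 0 T) w → (∀ t ∈ Icc 0 T, Function.Periodic (w t) (2 * Real.pi)) →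
  (∀ t ∈ Icc 0 T, ∀ x, HasDerivWithinAt (fun s => w s x) (wt t x) (Icc 0 T) t) →
  (∀ t ∈ Icc 0 T, HasDerivWithinAt z (zt t) (Icc 0 T) t) →
  (∀ t ∈ Icc 0 T, ∃ x0 x1 x2 x3, S t = ‖w t x0‖ + ‖iteratedDeriv 1 (w t) x1‖
    + ‖iteratedDeriv 2 (w t) x2‖ + ‖iteratedDeriv 3 (w t) x3‖) →
  (∀ t ∈ Icc 0 T, ∀ x, ‖wt t x + (2 : ℝ) • iteratedDeriv 4 (w t) x‖ ≤ C * (S t + ‖z t‖)) →
  (∀ t ∈ Icc 0 T, ‖zt t‖ ≤ C * (S t + ‖z t‖)) →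
  (∀ x, w 0 x = 0) → z 0 = 0 → ∀ t ∈ Icc 0 T, (∀ x, w t x = 0) ∧ z t = 0

/-- Lipschitz estimate for the nonlinearity in the `C³` norm -/
def ClaimLip : Prop := ∀ (n : ℕ) (σ K : ℝ), Sgn σ → ∃ C, ∀ (u v : ℝ → V n) (p m q l S : ℝ),
  ContDiff ℝ ∞ u → ContDiff ℝ ∞ v → Function.Periodic u (2 * Real.pi) →
  Function.Periodic v (2 * Real.pi) →
  (∀ j ≤ 3, ∀ x, ‖iteratedDeriv j u x‖ ≤ K ∧ ‖iteratedDeriv j v x‖ ≤ K) →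
  |p| ≤ K → |m| ≤ K → |q| ≤ K → |l| ≤ K →
  (∀ j ≤ 3, ∀ x, ‖iteratedDeriv j u x - iteratedDeriv j v x‖ ≤ S) → |p - q| ≤ S → |m - l| ≤ S →
  (∀ x, ‖(rhs σ p m u x + (2 : ℝ) • iteratedDeriv 4 u x)
    - (rhs σ q l v x + (2 : ℝ) • iteratedDeriv 4 v x)‖ ≤ C * S) ∧
  |2 * p * mu σ p m u - 2 * q * mu σ q l v| ≤ C * S ∧
  |2 * m * mu σ p m u - 2 * l * mu σ q l v| ≤ C * S

def ClaimUnique : Prop := ∀ (n : ℕ) (σ T : ℝ) (u v : ℝ → ℝ → V n) (p m q l : ℝ → ℝ), Sgn σ →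
  0 < T → Sol σ (Icc 0 T) u p m → Sol σ (Icc 0 T) v q l → u 0 = v 0 → p 0 = q 0 → m 0 = l 0 →
  ∀ t ∈ Icc 0 T, u t = v t ∧ p t = q t ∧ m t = l t

/-- propagation of the constraints -/
def ClaimConstraint : Prop := ∀ (n : ℕ) (σ T : ℝ) (u : ℝ → ℝ → V n) (p m : ℝ → ℝ), Sgn σ →
  0 < T → Sol σ (Icc 0 T) u p m → Con σ (p 0) (u 0) → m 0 = (p 0)⁻¹ →
  ∀ t ∈ Icc 0 T, Con σ (p t) (u t) ∧ m t = (p t)⁻¹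

/-- the velocity is tangent to the space and normal to the curve -/
def ClaimVelTan : Prop := ∀ (n : ℕ) (σ p : ℝ) (u : ℝ → V n), Sgn σ → Con σ p u →
  ∀ x, B σ (vel σ p p⁻¹ u x) (u x) = 0 ∧ B σ (vel σ p p⁻¹ u x) (deriv u x) = 0

/-- tangential component of the right hand side -/
noncomputable def xi (σ p m : ℝ) {n : ℕ} (u : ℝ → V n) (x : ℝ) : ℝ :=
  alpha σ p m u x + 3 * m * rhox σ u x

def ClaimXi : Prop := ∀ (n : ℕ) (σ p : ℝ) (u : ℝ → V n), Sgn σ → Con σ p u →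
  xi σ p p⁻¹ u 0 = 0 ∧
  ∀ x, HasDerivAt (xi σ p p⁻¹ u)
    (p⁻¹ * B σ (vel σ p p⁻¹ u x) (iteratedDeriv 2 u x + (σ * p) • u x) - mu σ p p⁻¹ u) x

/-- energy identity -/
def ClaimEnergy : Prop := ∀ (n : ℕ) (σ : ℝ) (I : Set ℝ) (u : ℝ → ℝ → V n) (p : ℝ → ℝ), Sgn σ →
  Itv I → CSol σ I u p →
  ∀ t ∈ I, HasDerivWithinAt (fun s => en σ (p s) (u s))
    (-((p t * Real.sqrt (p t))⁻¹ * dis σ (p t) (u t))) I t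

/-- second order estimate of the nonlinearity -/
def ClaimH4a : Prop := ∀ (n : ℕ) (σ K : ℝ), Sgn σ → 0 < K → ∃ C, ∀ (u : ℝ → V n) (p : ℝ),
  ContDiff ℝ ∞ u → Function.Periodic u (2 * Real.pi) → K⁻¹ ≤ p → p ≤ K →
  (∀ x, nsq (u x) ≤ K) → per (fun x => nsq (iteratedDeriv 2 u x)) ≤ K →
  per (fun x => nsq (iteratedDeriv 2
    (fun y => rhs σ p p⁻¹ u y + (2 : ℝ) • iteratedDeriv 4 u y) x)) ≤
    C * (1 + per (fun x => nsq (iteratedDeriv 6 u x))) ^ ((7 : ℝ) / 8)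

def ClaimH4 : Prop := ∀ (n : ℕ) (σ K : ℝ), Sgn σ → 0 < K → ∃ C, ∀ (a b : ℝ) (u : ℝ → ℝ → V n) (p : ℝ → ℝ),
  a < b → CSol σ (Icc a b) u p →
  (∀ t ∈ Icc a b, K⁻¹ ≤ p t ∧ p t ≤ K ∧ (∀ x, nsq (u t x) ≤ K) ∧
    per (fun x => nsq (iteratedDeriv 2 (u t) x)) ≤ K) →
  ∀ t ∈ Ioc a b, per (fun x => nsq (iteratedDeriv 4 (u t) x)) ≤ C * (1 + (t - a)⁻¹) ∧
    per (fun x => nsq (iteratedDeriv 4 (u t) x)) ≤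
      max (per (fun x => nsq (iteratedDeriv 4 (u a) x))) C

/-! ## Group G: geometry of the model spaces -/

def ClaimTan : Prop := ∀ (n : ℕ) (σ K : ℝ), Sgn σ →
  (∀ q ∈ space σ n, ∀ X : V n, B σ X q = 0 → 0 ≤ B σ X X) ∧
  ∃ C > 0, ∀ q ∈ space σ n, nsq q ≤ K → ∀ X : V n, B σ X q = 0 → nsq X ≤ C * B σ X X

/-- static bounds from the energy -/
def ClaimStatic : Prop := ∀ (n : ℕ) (σ E0 : ℝ), Sgn σ → ∃ K > 0, ∀ (u : ℝ → V n) (p : ℝ),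
  Con σ p u → en σ p u ≤ E0 → K⁻¹ ≤ p ∧ p ≤ K ∧ 0 ≤ en σ p u ∧
    (u 0 = e0 n → (∀ x, nsq (u x) ≤ K))

/-- static bound for the second derivative -/
def ClaimStatic2 : Prop := ∀ (n : ℕ) (σ E0 K : ℝ), Sgn σ → ∃ K' > 0, ∀ (u : ℝ → V n) (p : ℝ),
  Con σ p u → en σ p u ≤ E0 → (∀ x, nsq (u x) ≤ K) →
    per (fun x => nsq (iteratedDeriv 2 u x)) ≤ K'

def ClaimIso : Prop := ∀ (n : ℕ) (σ K : ℝ), Sgn σ →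
  (∀ q ∈ space σ n, ∃ g, IsIso σ g ∧ g q = e0 n) ∧
  (∀ g : V n →ₗ[ℝ] V n, IsIso σ g → ∃ h : V n →ₗ[ℝ] V n, IsIso σ h ∧
    (∀ x, h (g x) = x) ∧ (∀ x, g (h x) = x)) ∧
  (∃ C > 0, ∀ g : V n →ₗ[ℝ] V n, IsIso σ g → nsq (g (e0 n)) ≤ K → ∀ x, nsq (g x) ≤ C * nsq x) ∧
  (∃ C > 0, ∀ g : V n →ₗ[ℝ] V n, IsIso σ g → ∀ q, nsq q ≤ K → g q = e0 n →
    ∀ x, nsq (g x) ≤ C * nsq x)

/-- invariance under isometries -/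
def ClaimInv : Prop := ∀ (n : ℕ) (σ : ℝ) (g : V n →ₗ[ℝ] V n), Sgn σ → IsIso σ g →
  (∀ (u : ℝ → V n), ContDiff ℝ ∞ u → ∀ (j : ℕ) (x : ℝ),
    iteratedDeriv j (fun y => g (u y)) x = g (iteratedDeriv j u x)) ∧
  (∀ (u : ℝ → V n) (p : ℝ), Con σ p u → Con σ p (fun y => g (u y)) ∧
    en σ p (fun y => g (u y)) = en σ p u ∧ dis σ p (fun y => g (u y)) = dis σ p u ∧
    ∀ x, vel σ p p⁻¹ (fun y => g (u y)) x = g (vel σ p p⁻¹ u x)) ∧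
  (∀ (I : Set ℝ) (u : ℝ → ℝ → V n) (p : ℝ → ℝ), CSol σ I u p →
    CSol σ I (fun t y => g (u t y)) p)

/-- short time control of the position -/
def ClaimDrift : Prop := ∀ (n : ℕ) (σ E0 : ℝ), Sgn σ → ∃ K > 0, ∀ (a b : ℝ) (u : ℝ → ℝ → V n)
  (p : ℝ → ℝ), a < b → b ≤ a + 1 → CSol σ (Icc a b) u p → en σ (p a) (u a) ≤ E0 →
  u a 0 = e0 n → ∀ t ∈ Icc a b, ∀ x, nsq (u t x) ≤ K

/-- a priori bound, uniform in time, modulo isometries -/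
def ClaimApriori : Prop := ∀ (n : ℕ) (σ E0 Y0 : ℝ), Sgn σ → ∃ R, ∀ (T : ℝ) (u : ℝ → ℝ → V n)
  (p : ℝ → ℝ), 0 < T → CSol σ (Icc 0 T) u p → en σ (p 0) (u 0) ≤ E0 →
  (∃ g : V n →ₗ[ℝ] V n, IsIso σ g ∧ g (u 0 0) = e0 n ∧
    per (fun x => nsq (iteratedDeriv 4 (fun y => g (u 0 y)) x)) ≤ Y0) →
  ∀ t ∈ Icc 0 T, ∀ g : V n →ₗ[ℝ] V n, IsIso σ g → g (u t 0) = e0 n →
    (∀ x, nsq (g (u t x)) ≤ R) ∧
    per (fun x => nsq (iteratedDeriv 4 (fun y => g (u t y)) x)) ≤ R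

/-! ## Group E: global existence, compactness, convergence -/

def ClaimGlobal : Prop := ∀ (n : ℕ) (σ : ℝ) (u0 : ℝ → V n) (p0 : ℝ), Sgn σ → Con σ p0 u0 →
  ∃ (u : ℝ → ℝ → V n) (p : ℝ → ℝ), CSol σ (Ici 0) u p ∧ u 0 = u0 ∧ p 0 = p0

def ClaimBounds : Prop := ∀ (n : ℕ) (σ : ℝ) (u : ℝ → ℝ → V n) (p : ℝ → ℝ), Sgn σ →
  CSol σ (Ici 0) u p →
  (∃ K > 0, ∀ t ∈ Ici (0 : ℝ), K⁻¹ ≤ p t ∧ p t ≤ K) ∧
  ∀ j : ℕ, ∃ C, ∀ t ∈ Ici (0 : ℝ), ∀ g : V n →ₗ[ℝ] V n, IsIso σ g → g (u t 0) = e0 n →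
    ∀ x, nsq (iteratedDeriv j (fun y => g (u t y)) x) ≤ C

def ClaimCompact : Prop := ∀ (n : ℕ) (f : ℕ → ℝ → V n), (∀ k, ContDiff ℝ ∞ (f k)) →
  (∀ k, Function.Periodic (f k) (2 * Real.pi)) →
  (∀ j : ℕ, ∃ C, ∀ k x, nsq (iteratedDeriv j (f k) x) ≤ C) →
  ∃ (φ : ℕ → ℕ) (g : ℝ → V n), StrictMono φ ∧ ContDiff ℝ ∞ g ∧
    Function.Periodic g (2 * Real.pi) ∧
    ∀ j : ℕ, TendstoUniformly (fun k x => iteratedDeriv j (f (φ k)) x) (iteratedDeriv j g) atTop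

def ClaimSub : Prop := ∀ (n : ℕ) (σ : ℝ) (u : ℝ → ℝ → V n) (p : ℝ → ℝ), Sgn σ →
  CSol σ (Ici 0) u p →
  ∃ (s : ℕ → ℝ) (g : ℕ → V n →ₗ[ℝ] V n) (v : ℝ → V n) (q : ℝ), Tendsto s atTop atTop ∧
    (∀ k, 0 ≤ s k ∧ IsIso σ (g k)) ∧ Con σ q v ∧ (∀ x, vel σ q q⁻¹ v x = 0) ∧
    ∀ j : ℕ, TendstoUniformly (fun k x => iteratedDeriv j (fun y => g k (u (s k) y)) x)
      (iteratedDeriv j v) atTop

/-- interpolation between `L²` and high norms -/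
def ClaimInterp : Prop := ∀ (n N : ℕ) (K δ : ℝ), 0 < δ → ∃ ε > 0, ∀ f : ℝ → V n,
  ContDiff ℝ ∞ f → Function.Periodic f (2 * Real.pi) →
  (∀ x, nsq (iteratedDeriv (N + 2) f x) ≤ K) → per (fun x => nsq (f x)) ≤ ε →
  ∀ j ≤ N, ∀ x, nsq (iteratedDeriv j f x) ≤ δ

/-- Lojasiewicz-Simon inequality near a critical point -/
def ClaimLS : Prop := ∀ (n : ℕ) (σ : ℝ) (v : ℝ → V n) (q : ℝ), Sgn σ → Con σ q v →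
  (∀ x, vel σ q q⁻¹ v x = 0) →
  ∃ θ ∈ Ioo (0 : ℝ) 1, ∃ N : ℕ, ∀ K : ℝ, ∃ C > 0, ∃ δ > 0, ∀ (u : ℝ → V n) (p : ℝ), Con σ p u →
    (∀ j ≤ N, ∀ x, nsq (iteratedDeriv j u x) ≤ K) →
    (∀ j ≤ 6, ∀ x, nsq (iteratedDeriv j u x - iteratedDeriv j v x) ≤ δ) →
    |en σ p u - en σ q v| ^ θ ≤ C * Real.sqrt (dis σ p u)

/-- full convergence in the constant speed gauge -/
def ClaimConv : Prop := ∀ (n : ℕ) (σ : ℝ) (u : ℝ → ℝ → V n) (p : ℝ → ℝ), Sgn σ →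
  CSol σ (Ici 0) u p →
  ∃ (v : ℝ → V n) (q : ℝ), Con σ q v ∧ (∀ x, vel σ q q⁻¹ v x = 0) ∧
    ∀ j : ℕ, TendstoUniformly (fun t x => iteratedDeriv j (u t) x) (iteratedDeriv j v) atTop

/-! ## Group L: finite dimensional Lojasiewicz gradient inequality -/

def ClaimLoja : Prop := ∀ (d : ℕ) (f : (Fin d → ℝ) → ℝ) (a : Fin d → ℝ), AnalyticAt ℝ f a →
  ∃ θ ∈ Ioo (0 : ℝ) 1, ∃ C > 0, ∀ᶠ x in 𝓝 a, |f x - f a| ^ θ ≤ C * ‖fderiv ℝ f x‖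

/-! ## Group T: back to the elastic flow -/

def ClaimEnergyForm : Prop := ∀ (n : ℕ) (σ p : ℝ) (u : ℝ → V n), Sgn σ → Con σ p u →
  IsClosedCurve σ u ∧ energy σ u = en σ p u

/-- the gradient at constant speed curves -/
def ClaimGradCon : Prop := ∀ (n : ℕ) (σ p : ℝ) (u : ℝ → V n), Sgn σ → Con σ p u →
  IsL2Gradient σ u (fun x => -((p ^ 2)⁻¹ • vel σ p p⁻¹ u x))

def ClaimGradUnique : Prop := ∀ (n : ℕ) (σ : ℝ) (γ W W' : ℝ → V n), Sgn σ → IsClosedCurve σ γ →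
  IsL2Gradient σ γ W → IsL2Gradient σ γ W' → W = W'

/-- reparametrisation invariance of the gradient -/
def ClaimGradRep : Prop := ∀ (n : ℕ) (σ : ℝ) (γ W : ℝ → V n) (Y : ℝ → ℝ), Sgn σ →
  IsClosedCurve σ γ → IsReparam Y → IsL2Gradient σ γ W →
  IsL2Gradient σ (fun x => γ (Y x)) (fun x => W (Y x))

/-- normalised arclength from `x = 0` -/
noncomputable def arcY (σ : ℝ) {n : ℕ} (γ : ℝ → V n) (x : ℝ) : ℝ :=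
  2 * Real.pi / (per (fun y => vnorm σ (deriv γ y))) * ∫ y in (0 : ℝ)..x, vnorm σ (deriv γ y)

/-- constant speed reparametrisation of a smooth family -/
def ClaimArc : Prop := ∀ (n : ℕ) (σ : ℝ) (γ : ℝ → ℝ → V n), Sgn σ → JS (Ici 0) γ →
  (∀ t ∈ Ici (0 : ℝ), IsClosedCurve σ (γ t)) →
  ∃ (X : ℝ → ℝ → ℝ) (p : ℝ → ℝ), JS (Ici 0) (fun t => arcY σ (γ t)) ∧ JS (Ici 0) X ∧
    ContDiffOn ℝ ∞ p (Ici 0) ∧ ∀ t ∈ Ici (0 : ℝ), IsReparam (arcY σ (γ t)) ∧ IsReparam (X t) ∧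
      arcY σ (γ t) 0 = 0 ∧ (∀ x, X t (arcY σ (γ t) x) = x ∧ arcY σ (γ t) (X t x) = x) ∧
      Con σ (p t) (fun y => γ t (X t y))

/-- flow of a scalar time dependent periodic vector field -/
def ClaimODE : Prop := ∀ b : ℝ → ℝ → ℝ, JS (Ici 0) b →
  (∀ t ∈ Ici (0 : ℝ), Function.Periodic (b t) (2 * Real.pi)) → ∀ Y0 : ℝ → ℝ, IsReparam Y0 →
  ∃ Y : ℝ → ℝ → ℝ, JS (Ici 0) Y ∧ Y 0 = Y0 ∧ (∀ t ∈ Ici (0 : ℝ), IsReparam (Y t)) ∧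
    ∀ t ∈ Ici (0 : ℝ), ∀ x, HasDerivWithinAt (fun s => Y s x) (- b t (Y t x)) (Ici 0) t

def ClaimODEUnique : Prop := ∀ b : ℝ → ℝ → ℝ, JS (Ici 0) b →
  (∀ t ∈ Ici (0 : ℝ), Function.Periodic (b t) (2 * Real.pi)) → ∀ Y Y' : ℝ → ℝ → ℝ, Y 0 = Y' 0 →
  (∀ t ∈ Ici (0 : ℝ), ∀ x, HasDerivWithinAt (fun s => Y s x) (- b t (Y t x)) (Ici 0) t) →
  (∀ t ∈ Ici (0 : ℝ), ∀ x, HasDerivWithinAt (fun s => Y' s x) (- b t (Y' t x)) (Ici 0) t) →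
  ∀ t ∈ Ici (0 : ℝ), Y t = Y' t

/-- solutions of the constant speed flow in the original time -/
structure TSol (σ : ℝ) {n : ℕ} (I : Set ℝ) (u : ℝ → ℝ → V n) (p : ℝ → ℝ) : Prop where
  smooth : JS I u
  psmooth : ContDiffOn ℝ ∞ p I
  con : ∀ t ∈ I, Con σ (p t) (u t)
  eqn : ∀ t ∈ I, ∀ x, HasDerivWithinAt (fun s => u s x)
    ((p t ^ 2)⁻¹ • rhs σ (p t) (p t)⁻¹ (u t) x) I t

def ClaimTUnique : Prop := ∀ (n : ℕ) (σ : ℝ) (u v : ℝ → ℝ → V n) (p q : ℝ → ℝ), Sgn σ →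
  TSol σ (Ici 0) u p → TSol σ (Ici 0) v q → u 0 = v 0 → ∀ t ∈ Ici (0 : ℝ), u t = v t ∧ p t = q t

def ClaimTGlobal : Prop := ∀ (n : ℕ) (σ : ℝ) (u0 : ℝ → V n) (p0 : ℝ), Sgn σ → Con σ p0 u0 →
  ∃ (u : ℝ → ℝ → V n) (p : ℝ → ℝ), TSol σ (Ici 0) u p ∧ u 0 = u0 ∧
    ∃ (v : ℝ → V n) (q : ℝ), Con σ q v ∧ (∀ x, vel σ q q⁻¹ v x = 0) ∧
      ∀ j : ℕ, TendstoUniformly (fun t x => iteratedDeriv j (u t) x) (iteratedDeriv j v) atTop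

/-- time change on a compact interval -/
def ClaimTimeIcc : Prop := ∀ (T : ℝ) (a : ℝ → ℝ), 0 < T → ContDiffOn ℝ ∞ a (Icc 0 T) →
  (∀ t ∈ Icc 0 T, 0 < a t) →
  ∃ (T' : ℝ) (τ Θ : ℝ → ℝ), 0 < T' ∧ ContDiffOn ℝ ∞ τ (Icc 0 T) ∧ ContDiffOn ℝ ∞ Θ (Icc 0 T') ∧
    τ 0 = 0 ∧ τ T = T' ∧ Θ 0 = 0 ∧ Θ T' = T ∧ (∀ t ∈ Icc 0 T, τ t ∈ Icc 0 T' ∧ Θ (τ t) = t) ∧
    (∀ s ∈ Icc 0 T', Θ s ∈ Icc 0 T ∧ τ (Θ s) = s) ∧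
    (∀ t ∈ Icc 0 T, HasDerivWithinAt τ (a t) (Icc 0 T) t) ∧
    (∀ s ∈ Icc 0 T', HasDerivWithinAt Θ (a (Θ s))⁻¹ (Icc 0 T') s)

/-- time change on the half line -/
def ClaimTimeIci : Prop := ∀ (K : ℝ) (a : ℝ → ℝ), 0 < K → ContDiffOn ℝ ∞ a (Ici 0) →
  (∀ t ∈ Ici (0 : ℝ), K⁻¹ ≤ a t ∧ a t ≤ K) →
  ∃ (τ Θ : ℝ → ℝ), ContDiffOn ℝ ∞ τ (Ici 0) ∧ ContDiffOn ℝ ∞ Θ (Ici 0) ∧
    τ 0 = 0 ∧ Θ 0 = 0 ∧ (∀ t ∈ Ici (0 : ℝ), τ t ∈ Ici (0 : ℝ) ∧ Θ (τ t) = t) ∧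
    (∀ s ∈ Ici (0 : ℝ), Θ s ∈ Ici (0 : ℝ) ∧ τ (Θ s) = s) ∧ Tendsto τ atTop atTop ∧
    Tendsto Θ atTop atTop ∧
    (∀ t ∈ Ici (0 : ℝ), HasDerivWithinAt τ (a t) (Ici 0) t) ∧
    (∀ s ∈ Ici (0 : ℝ), HasDerivWithinAt Θ (a (Θ s))⁻¹ (Ici 0) s)

/-- an elastic flow, reparametrised to constant speed, solves the semilinear equation -/
def ClaimFlowToT : Prop := ∀ (n : ℕ) (σ : ℝ) (γ₀ : ℝ → V n) (γ : ℝ → ℝ → V n), Sgn σ →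
  IsElasticFlow σ γ₀ γ →
  ∃ (X : ℝ → ℝ → ℝ) (p : ℝ → ℝ), TSol σ (Ici 0) (fun t y => γ t (X t y)) p ∧
    (∀ t ∈ Ici (0 : ℝ), ∀ x, X t (arcY σ (γ t) x) = x ∧ arcY σ (γ t) (X t x) = x) ∧
    ∀ t ∈ Ici (0 : ℝ), ∀ x, HasDerivWithinAt (fun s => arcY σ (γ s) x)
      (-((p t ^ 2)⁻¹ * xi σ (p t) (p t)⁻¹ (fun y => γ t (X t y)) (arcY σ (γ t) x))) (Ici 0) t

/-- a constant speed solution gives an elastic flow -/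
def ClaimTToFlow : Prop := ∀ (n : ℕ) (σ : ℝ) (γ₀ : ℝ → V n) (u : ℝ → ℝ → V n) (p : ℝ → ℝ)
  (Y0 : ℝ → ℝ), Sgn σ → TSol σ (Ici 0) u p → IsReparam Y0 → (∀ x, γ₀ x = u 0 (Y0 x)) →
  ∃ Y : ℝ → ℝ → ℝ, (∀ t ∈ Ici (0 : ℝ), IsReparam (Y t)) ∧
    IsElasticFlow σ γ₀ (fun t x => u t (Y t x))

def ClaimMain : Prop := ∀ (n : ℕ) (σ : ℝ), Sgn σ → SC σ n

end Pool.Agent.Work.MP_4a14ce_an
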