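import Mathlib

/-!
# Elastic flow in the sphere and in hyperbolic space: definitions of the statement

The sphere (`σ = 1`) and hyperbolic space (`σ = -1`, hyperboloid model) are the sets
`{p : B σ p p = σ}` (with `p 0 > 0` if `σ < 0`) in `ℝ^{n+1}` with the bilinear form
`B σ x y = σ x₀ y₀ + x₁ y₁ + ... + xₙ yₙ`, whose restriction to the tangent spaces
`{v : B σ v p = 0}` is the Riemannian metric.
-/

open Set MeasureTheory Topology Filter
open scoped ContDiff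

namespace Pool.Agent.Work.MP_4a14ce_an

/-- The ambient vector space `ℝ^{n+1}`. -/
abbrev V (n : ℕ) : Type := Fin (n + 1) → ℝ

/-- The bilinear form `σ x₀ y₀ + x₁ y₁ + ... + xₙ yₙ`. -/
def B (σ : ℝ) {n : ℕ} (x y : V n) : ℝ := σ * (x 0 * y 0) + ∑ i : Fin n, x i.succ * y i.succ

/-- `space 1 n` is the unit sphere `S^n`, `space (-1) n` the hyperboloid model of `H^n`. -/
def space (σ : ℝ) (n : ℕ) : Set (V n) := {p | B σ p p = σ ∧ (σ < 0 → 0 < p 0)}

/-- Smooth regular closed curves in `space σ n`, as `2π`-periodic maps. -/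
structure IsClosedCurve (σ : ℝ) {n : ℕ} (γ : ℝ → V n) : Prop where
  smooth : ContDiff ℝ ∞ γ
  periodic : Function.Periodic γ (2 * Real.pi)
  mem : ∀ x, γ x ∈ space σ n
  regular : ∀ x, deriv γ x ≠ 0

/-- Riemannian norm of a tangent vector. -/
noncomputable def vnorm (σ : ℝ) {n : ℕ} (v : V n) : ℝ := Real.sqrt (B σ v v)

/-- Arclength derivative `∂_s X = X' / |γ'|` of a map `X` along `γ`. -/
noncomputable def ds (σ : ℝ) {n : ℕ} (γ X : ℝ → V n) (x : ℝ) : V n :=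
  (vnorm σ (deriv γ x))⁻¹ • deriv X x

/-- Covariant arclength derivative along `γ`: the `B σ`-orthogonal projection of `∂_s X` to
the tangent space of `space σ n` at `γ x`. -/
noncomputable def nabla (σ : ℝ) {n : ℕ} (γ X : ℝ → V n) (x : ℝ) : V n :=
  ds σ γ X x - (σ * B σ (ds σ γ X x) (γ x)) • γ x

/-- Unit tangent. -/
noncomputable def tau (σ : ℝ) {n : ℕ} (γ : ℝ → V n) : ℝ → V n := ds σ γ γ

/-- Curvature vector. -/
noncomputable def kap (σ : ℝ) {n : ℕ} (γ : ℝ → V n) : ℝ → V n := nabla σ γ (tau σ γ)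

/-- The elastic energy `∫ (|κ|² + 1) ds`. -/
noncomputable def energy (σ : ℝ) {n : ℕ} (γ : ℝ → V n) : ℝ :=
  ∫ x in (0 : ℝ)..(2 * Real.pi),
    (B σ (kap σ γ x) (kap σ γ x) + 1) * vnorm σ (deriv γ x)

/-- Smooth variations `Γ ε`, `|ε| < δ`, of the closed curve `γ` through closed curves. -/
structure IsVariation (σ : ℝ) {n : ℕ} (γ : ℝ → V n) (δ : ℝ) (Γ : ℝ → ℝ → V n) : Prop where
  pos : 0 < δ
  smooth : ContDiffOn ℝ ∞ (fun z : ℝ × ℝ => Γ z.1 z.2) (Ioo (-δ) δ ×ˢ univ)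
  closed : ∀ ε ∈ Ioo (-δ) δ, IsClosedCurve σ (Γ ε)
  start : Γ 0 = γ

/-- The variation field `∂_ε Γ (0, x)`. -/
noncomputable def varField {n : ℕ} (Γ : ℝ → ℝ → V n) (x : ℝ) : V n :=
  deriv (fun ε => Γ ε x) 0

/-- `W` is the `L²(ds)`-gradient of the elastic energy at `γ`: a normal field along `γ` with
`d/dε E(Γ ε) = ∫ ⟨W, V⟩ ds` for all variations with normal variation field `V`. -/
structure IsL2Gradient (σ : ℝ) {n : ℕ} (γ W : ℝ → V n) : Prop where
  smooth : ContDiff ℝ ∞ W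
  periodic : Function.Periodic W (2 * Real.pi)
  tangent : ∀ x, B σ (W x) (γ x) = 0
  normal : ∀ x, B σ (W x) (deriv γ x) = 0
  grad : ∀ (δ : ℝ) (Γ : ℝ → ℝ → V n), IsVariation σ γ δ Γ →
    (∀ x, B σ (varField Γ x) (deriv γ x) = 0) →
    HasDerivAt (fun ε => energy σ (Γ ε))
      (∫ x in (0 : ℝ)..(2 * Real.pi),
        B σ (W x) (varField Γ x) * vnorm σ (deriv γ x)) 0

/-- Elastic flow on `[0, ∞)` with initial datum `γ₀`: a smooth family of closed curves with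
`∂_t γ = - ∇E(γ_t)`. -/
structure IsElasticFlow (σ : ℝ) {n : ℕ} (γ₀ : ℝ → V n) (γ : ℝ → ℝ → V n) : Prop where
  smooth : ContDiffOn ℝ ∞ (fun z : ℝ × ℝ => γ z.1 z.2) (Ici 0 ×ˢ univ)
  closed : ∀ t ∈ Ici (0 : ℝ), IsClosedCurve σ (γ t)
  start : γ 0 = γ₀
  flow : ∀ t ∈ Ici (0 : ℝ),
    IsL2Gradient σ (γ t) (fun x => - derivWithin (fun s => γ s x) (Ici 0) t)

/-- Orientation preserving smooth reparametrisations of the circle `ℝ / 2πℤ`. -/
structure IsReparam (ψ : ℝ → ℝ) : Prop where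
  smooth : ContDiff ℝ ∞ ψ
  shift : ∀ x, ψ (x + 2 * Real.pi) = ψ x + 2 * Real.pi
  deriv_pos : ∀ x, 0 < deriv ψ x

/-- Property (SC) of `space σ n`: for every smooth regular closed curve there is a unique
elastic flow on `[0, ∞)`, and up to reparametrisation it converges in every `C^m` to a smooth
critical point of the energy. -/
def SC (σ : ℝ) (n : ℕ) : Prop :=
  ∀ γ₀ : ℝ → V n, IsClosedCurve σ γ₀ →
    ∃ γ : ℝ → ℝ → V n, IsElasticFlow σ γ₀ γ ∧
      (∀ γ' : ℝ → ℝ → V n, IsElasticFlow σ γ₀ γ' → ∀ t ∈ Ici (0 : ℝ), γ' t = γ t) ∧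
      ∃ γinf : ℝ → V n, IsClosedCurve σ γinf ∧ IsL2Gradient σ γinf (fun _ => 0) ∧
        ∃ ψ : ℝ → ℝ → ℝ, (∀ t ∈ Ici (0 : ℝ), IsReparam (ψ t)) ∧
          ∀ m : ℕ, TendstoUniformly
            (fun (t : ℝ) (x : ℝ) => iteratedDeriv m (fun y => γ t (ψ t y)) x)
            (fun x => iteratedDeriv m γinf x) atTop

end Pool.Agent.Work.MP_4a14ce_an
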