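import Pool.Agent.Work.MP_4a14ce_an.Bd.B07
import Pool.Agent.Work.MP_4a14ce_an.Bd.B06

/-!
# Property (SC) of the sphere and of hyperbolic space
-/

namespace Pool.Agent.Work.MP_4a14ce_an

theorem final : ClaimMain := aFinal (claimLocal partialsC1)

end Pool.Agent.Work.MP_4a14ce_an
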