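import Pool.Agent.Work.MP_4a14ce_an.Bd.B01

/-!
# Joint smoothness of the quantities built from a jointly smooth family
-/

open Set MeasureTheory Topology Filter
open scoped ContDiff

namespace Pool.Agent.Work.MP_4a14ce_an

variable {n : ℕ} {I : Set ℝ}

theorem jsb_comp {k : WithTop ℕ∞} {u : ℝ → ℝ → V n} {I : Set ℝ} (i : Fin (n + 1))
    (hu : ContDiffOn ℝ k (fun z : ℝ × ℝ => u z.1 z.2) (I ×ˢ univ)) :
    ContDiffOn ℝ k (fun z : ℝ × ℝ => u z.1 z.2 i) (I ×ˢ univ) :=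
  contDiffOn_pi.mp hu i

theorem jsb_B {k : WithTop ℕ∞} (σ : ℝ) {f g : ℝ → ℝ → V n} {I : Set ℝ}
    (hf : ContDiffOn ℝ k (fun z : ℝ × ℝ => f z.1 z.2) (I ×ˢ univ))
    (hg : ContDiffOn ℝ k (fun z : ℝ × ℝ => g z.1 z.2) (I ×ˢ univ)) :
    ContDiffOn ℝ k (fun z : ℝ × ℝ => B σ (f z.1 z.2) (g z.1 z.2)) (I ×ˢ univ) := by
  unfold B
  apply ContDiffOn.add
  · exact contDiffOn_const.mul ((jsb_comp 0 hf).mul (jsb_comp 0 hg))
  · apply ContDiffOn.sum
    intro i _
    exact (jsb_comp i.succ hf).mul (jsb_comp i.succ hg)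

theorem jsb_time {k : WithTop ℕ∞} {p : ℝ → ℝ} {I : Set ℝ} (hp : ContDiffOn ℝ k p I) :
    ContDiffOn ℝ k (fun z : ℝ × ℝ => p z.1) (I ×ˢ univ) :=
  hp.comp contDiffOn_fst (fun _ hz => hz.1)

/-- all building blocks are jointly smooth -/
theorem jsb_all (hS : JSSlice) (h0 : JSInt0x) (hP : JSPer) (hD : JSDt1) (σ : ℝ) (hI : Itv I)
    {u : ℝ → ℝ → V n} {p m : ℝ → ℝ} (hu : JS I u) (hp : ContDiffOn ℝ ∞ p I)
    (hm : ContDiffOn ℝ ∞ m I) :
    JS I (fun t => rho σ (p t) (u t)) ∧ JS I (fun t => rhox σ (u t)) ∧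
    JS I (fun t => eta σ (p t) (u t)) ∧ JS I (fun t => beta σ (p t) (m t) (u t)) ∧
    JS I (fun t => hh σ (p t) (m t) (u t)) ∧
    ContDiffOn ℝ ∞ (fun t => mu σ (p t) (m t) (u t)) I ∧
    JS I (fun t => alpha σ (p t) (m t) (u t)) ∧ JS I (fun t => xi σ (p t) (m t) (u t)) ∧
    JS I (fun t => vel σ (p t) (m t) (u t)) ∧ JS I (fun t => rhs σ (p t) (m t) (u t)) := by
  have hj : ∀ j : ℕ, ContDiffOn ℝ ∞ (fun z : ℝ × ℝ => iteratedDeriv j (u z.1) z.2) (I ×ˢ univ) :=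
    fun j => (hS (n + 1) I u hI hu).2 j
  have hB : ∀ i j : ℕ, ContDiffOn ℝ ∞ (fun z : ℝ × ℝ =>
      B σ (iteratedDeriv i (u z.1) z.2) (iteratedDeriv j (u z.1) z.2)) (I ×ˢ univ) := fun i j =>
    jsb_B (f := fun t => iteratedDeriv i (u t)) (g := fun t => iteratedDeriv j (u t)) σ
      (hj i) (hj j)
  have hu' : ContDiffOn ℝ ∞ (fun z : ℝ × ℝ => u z.1 z.2) (I ×ˢ univ) := hu
  have hp' : ContDiffOn ℝ ∞ (fun z : ℝ × ℝ => p z.1) (I ×ˢ univ) := jsb_time hp
  have hm' : ContDiffOn ℝ ∞ (fun z : ℝ × ℝ => m z.1) (I ×ˢ univ) := jsb_time hm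
  have hrho : ContDiffOn ℝ ∞ (fun z : ℝ × ℝ => rho σ (p z.1) (u z.1) z.2) (I ×ˢ univ) := by
    simp only [rho]
    exact (hB 2 2).sub (contDiffOn_const.mul (hp'.pow 2))
  have hrhox : ContDiffOn ℝ ∞ (fun z : ℝ × ℝ => rhox σ (u z.1) z.2) (I ×ˢ univ) := by
    simp only [rhox]
    exact contDiffOn_const.mul (hB 2 3)
  have heta : ContDiffOn ℝ ∞ (fun z : ℝ × ℝ => eta σ (p z.1) (u z.1) z.2) (I ×ˢ univ) := by
    simp only [eta]
    exact ((hB 3 3).sub ((contDiffOn_const.mul hp').mul (hB 2 2))).add (hp'.pow 3)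
  have hbeta : ContDiffOn ℝ ∞ (fun z : ℝ × ℝ => beta σ (p z.1) (m z.1) (u z.1) z.2)
      (I ×ˢ univ) := by
    simp only [beta]
    exact ((contDiffOn_const.mul hm').mul hrho).add (contDiffOn_const.mul hp')
  have hhh : ContDiffOn ℝ ∞ (fun z : ℝ × ℝ => hh σ (p z.1) (m z.1) (u z.1) z.2)
      (I ×ˢ univ) := by
    simp only [hh]
    exact (((contDiffOn_const.mul hm').mul heta).sub
      ((contDiffOn_const.mul (hm'.pow 2)).mul (hrho.pow 2))).sub (contDiffOn_const.mul hrho)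
  have hmu : ContDiffOn ℝ ∞ (fun t => mu σ (p t) (m t) (u t)) I := by
    obtain ⟨ft, hft, hder⟩ := hD I (fun t => hh σ (p t) (m t) (u t)) hI hhh
    have h3 : ∀ t ∈ I, ∀ x, HasDerivWithinAt (fun s => hh σ (p s) (m s) (u s) x) (ft t x) I t := by
      intro t ht x
      have h4 := hder 0 t ht x
      simp only [iteratedDeriv_zero] at h4
      exact h4
    have h5 := (hP I (fun t => hh σ (p t) (m t) (u t)) ft hI hhh hft h3).1
    simp only [mu]
    exact contDiffOn_const.mul h5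
  have hmu' : ContDiffOn ℝ ∞ (fun z : ℝ × ℝ => mu σ (p z.1) (m z.1) (u z.1)) (I ×ˢ univ) :=
    jsb_time (p := fun t => mu σ (p t) (m t) (u t)) hmu
  have hrx0 : ContDiffOn ℝ ∞ (fun z : ℝ × ℝ => rhox σ (u z.1) 0) (I ×ˢ univ) := by
    have h1 : ContDiffOn ℝ ∞ (fun z : ℝ × ℝ => ((z.1, (0 : ℝ)) : ℝ × ℝ)) (I ×ˢ univ) :=
      (contDiff_fst.prodMk contDiff_const).contDiffOn
    have h2 : MapsTo (fun z : ℝ × ℝ => ((z.1, (0 : ℝ)) : ℝ × ℝ)) (I ×ˢ univ) (I ×ˢ univ) :=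
      fun z hz => ⟨hz.1, mem_univ _⟩
    exact hrhox.comp h1 h2
  have hint : ContDiffOn ℝ ∞ (fun z : ℝ × ℝ => ∫ y in (0 : ℝ)..z.2,
      (hh σ (p z.1) (m z.1) (u z.1) y - mu σ (p z.1) (m z.1) (u z.1))) (I ×ˢ univ) :=
    h0 I (fun t y => hh σ (p t) (m t) (u t) y - mu σ (p t) (m t) (u t)) hI (hhh.sub hmu')
  have halpha : ContDiffOn ℝ ∞ (fun z : ℝ × ℝ => alpha σ (p z.1) (m z.1) (u z.1) z.2)
      (I ×ˢ univ) := by
    simp only [alpha]
    exact (((contDiffOn_const.mul hm').mul hrhox).add (hm'.mul hrx0)).add hint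
  have hxi : ContDiffOn ℝ ∞ (fun z : ℝ × ℝ => xi σ (p z.1) (m z.1) (u z.1) z.2)
      (I ×ˢ univ) := by
    simp only [xi]
    exact halpha.add ((contDiffOn_const.mul hm').mul hrhox)
  have hj1 := hj 1
  have hj2 := hj 2
  have hj4 := hj 4
  have hvel : ContDiffOn ℝ ∞ (fun z : ℝ × ℝ => vel σ (p z.1) (m z.1) (u z.1) z.2)
      (I ×ˢ univ) := by
    simp only [vel]
    have a1 : ContDiffOn ℝ ∞ (fun z : ℝ × ℝ => -(2 : ℝ) • iteratedDeriv 4 (u z.1) z.2)
        (I ×ˢ univ) := hj4.const_smul (-(2 : ℝ))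
    have a2 : ContDiffOn ℝ ∞ (fun z : ℝ × ℝ => (2 * σ * p z.1) • iteratedDeriv 2 (u z.1) z.2)
        (I ×ˢ univ) := ((contDiffOn_const (c := 2 * σ)).mul hp').smul hj2
    have a3 : ContDiffOn ℝ ∞ (fun z : ℝ × ℝ => (3 * m z.1 * rhox σ (u z.1) z.2) •
        iteratedDeriv 1 (u z.1) z.2) (I ×ˢ univ) :=
      (((contDiffOn_const (c := (3 : ℝ))).mul hm').mul hrhox).smul hj1
    have a4 : ContDiffOn ℝ ∞ (fun z : ℝ × ℝ => (2 * σ * rho σ (p z.1) (u z.1) z.2) • u z.1 z.2)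
        (I ×ˢ univ) := ((contDiffOn_const (c := 2 * σ)).mul hrho).smul hu'
    have a5 : ContDiffOn ℝ ∞ (fun z : ℝ × ℝ => beta σ (p z.1) (m z.1) (u z.1) z.2 •
        (iteratedDeriv 2 (u z.1) z.2 + (σ * p z.1) • u z.1 z.2)) (I ×ˢ univ) :=
      hbeta.smul (hj2.add (((contDiffOn_const (c := σ)).mul hp').smul hu'))
    exact (((a1.sub a2).sub a3).add a4).sub a5
  have hrhs : ContDiffOn ℝ ∞ (fun z : ℝ × ℝ => rhs σ (p z.1) (m z.1) (u z.1) z.2)
      (I ×ˢ univ) := by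
    simp only [rhs]
    have a1 : ContDiffOn ℝ ∞ (fun z : ℝ × ℝ => -(2 : ℝ) • iteratedDeriv 4 (u z.1) z.2)
        (I ×ˢ univ) := hj4.const_smul (-(2 : ℝ))
    have a2 : ContDiffOn ℝ ∞ (fun z : ℝ × ℝ => (2 * σ * p z.1) • iteratedDeriv 2 (u z.1) z.2)
        (I ×ˢ univ) := ((contDiffOn_const (c := 2 * σ)).mul hp').smul hj2
    have a3 : ContDiffOn ℝ ∞ (fun z : ℝ × ℝ => alpha σ (p z.1) (m z.1) (u z.1) z.2 •
        iteratedDeriv 1 (u z.1) z.2) (I ×ˢ univ) := halpha.smul hj1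
    have a4 : ContDiffOn ℝ ∞ (fun z : ℝ × ℝ => (2 * σ * rho σ (p z.1) (u z.1) z.2) • u z.1 z.2)
        (I ×ˢ univ) := ((contDiffOn_const (c := 2 * σ)).mul hrho).smul hu'
    have a5 : ContDiffOn ℝ ∞ (fun z : ℝ × ℝ => beta σ (p z.1) (m z.1) (u z.1) z.2 •
        (iteratedDeriv 2 (u z.1) z.2 + (σ * p z.1) • u z.1 z.2)) (I ×ˢ univ) :=
      hbeta.smul (hj2.add (((contDiffOn_const (c := σ)).mul hp').smul hu'))
    exact (((a1.sub a2).add a3).add a4).sub a5
  exact ⟨hrho, hrhox, heta, hbeta, hhh, hmu, halpha, hxi, hvel, hrhs⟩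

theorem jsb_periodic_iter {u : ℝ → V n} (hu : Function.Periodic u (2 * Real.pi)) (j : ℕ) :
    Function.Periodic (iteratedDeriv j u) (2 * Real.pi) := by
  intro x
  have h := congrFun (iteratedDeriv_comp_add_const j u (2 * Real.pi)) x
  have h2 : (fun z => u (z + 2 * Real.pi)) = u := funext hu
  rw [h2] at h
  exact h.symm

theorem jsb_cont_B (σ : ℝ) {f g : ℝ → V n} (hf : Continuous f) (hg : Continuous g) :
    Continuous (fun x => B σ (f x) (g x)) := by
  unfold B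
  fun_prop

theorem jsb_cont_iter {u : ℝ → V n} (hu : ContDiff ℝ ∞ u) (j : ℕ) :
    Continuous (iteratedDeriv j u) :=
  hu.continuous_iteratedDeriv j (by exact_mod_cast le_top)

theorem jsb_cont_hh {u : ℝ → V n} (σ p m : ℝ) (hu : ContDiff ℝ ∞ u) :
    Continuous (hh σ p m u) := by
  unfold hh eta rho
  have h2 := jsb_cont_iter hu 2
  have h3 := jsb_cont_iter hu 3
  have := jsb_cont_B σ h2 h2
  have := jsb_cont_B σ h3 h3
  fun_prop

/-- periodicity of the building blocks -/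
theorem jsb_periodic {u : ℝ → V n} (σ p m : ℝ) (hs : ContDiff ℝ ∞ u)
    (hu : Function.Periodic u (2 * Real.pi)) :
    Function.Periodic (rho σ p u) (2 * Real.pi) ∧ Function.Periodic (rhox σ u) (2 * Real.pi) ∧
    Function.Periodic (eta σ p u) (2 * Real.pi) ∧ Function.Periodic (beta σ p m u) (2 * Real.pi) ∧
    Function.Periodic (hh σ p m u) (2 * Real.pi) ∧
    Function.Periodic (alpha σ p m u) (2 * Real.pi) ∧
    Function.Periodic (xi σ p m u) (2 * Real.pi) ∧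
    Function.Periodic (vel σ p m u) (2 * Real.pi) ∧
    Function.Periodic (rhs σ p m u) (2 * Real.pi) := by
  have h1 := jsb_periodic_iter hu 1
  have h2 := jsb_periodic_iter hu 2
  have h3 := jsb_periodic_iter hu 3
  have h4 := jsb_periodic_iter hu 4
  have hrho : Function.Periodic (rho σ p u) (2 * Real.pi) := fun x => by
    simp only [rho, h2 x]
  have hrhox : Function.Periodic (rhox σ u) (2 * Real.pi) := fun x => by
    simp only [rhox, h2 x, h3 x]
  have heta : Function.Periodic (eta σ p u) (2 * Real.pi) := fun x => by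
    simp only [eta, h2 x, h3 x]
  have hbeta : Function.Periodic (beta σ p m u) (2 * Real.pi) := fun x => by
    simp only [beta, hrho x]
  have hhh : Function.Periodic (hh σ p m u) (2 * Real.pi) := fun x => by
    simp only [hh, hrho x, heta x]
  have hc := jsb_cont_hh σ p m hs
  have halpha : Function.Periodic (alpha σ p m u) (2 * Real.pi) := fun x => by
    have hg : Function.Periodic (fun y => hh σ p m u y - mu σ p m u) (2 * Real.pi) := fun y => by
      simp only [hhh y]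
    have hci : ∀ a b : ℝ, IntervalIntegrable (fun y => hh σ p m u y - mu σ p m u) volume a b :=
      fun a b => (hc.sub continuous_const).intervalIntegrable a b
    have e1 : (∫ y in (0 : ℝ)..(x + 2 * Real.pi), (hh σ p m u y - mu σ p m u)) =
        (∫ y in (0 : ℝ)..x, (hh σ p m u y - mu σ p m u)) +
        ∫ y in x..(x + 2 * Real.pi), (hh σ p m u y - mu σ p m u) :=
      (intervalIntegral.integral_add_adjacent_intervals (hci _ _) (hci _ _)).symm
    have e2 : (∫ y in x..(x + 2 * Real.pi), (hh σ p m u y - mu σ p m u)) = 0 := by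
      rw [hg.intervalIntegral_add_eq x 0, zero_add, intervalIntegral.integral_sub
        (hc.intervalIntegrable _ _) (continuous_const.intervalIntegrable _ _),
        intervalIntegral.integral_const]
      have hpi : (2 * Real.pi) ≠ 0 := by positivity
      simp only [mu, per, smul_eq_mul]
      field_simp
      ring
    simp only [alpha, hrhox x, e1, e2, add_zero]
  have hxi : Function.Periodic (xi σ p m u) (2 * Real.pi) := fun x => by
    simp only [xi, halpha x, hrhox x]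
  have hvel : Function.Periodic (vel σ p m u) (2 * Real.pi) := fun x => by
    simp only [vel, h4 x, h2 x, h1 x, hrhox x, hrho x, hbeta x, hu x]
  have hrhs : Function.Periodic (rhs σ p m u) (2 * Real.pi) := fun x => by
    simp only [rhs, h4 x, h2 x, h1 x, halpha x, hrho x, hbeta x, hu x]
  exact ⟨hrho, hrhox, heta, hbeta, hhh, halpha, hxi, hvel, hrhs⟩

end Pool.Agent.Work.MP_4a14ce_an
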