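import Pool.Agent.Work.MP_4a14ce_an.Bd.B05
import Pool.Agent.Work.MP_4a14ce_an.Bd.B03
import Pool.Agent.Work.MP_4a14ce_an.Bd.B04

/-!
# Group L: the Lojasiewicz gradient inequality
-/

namespace Pool.Agent.Work.MP_4a14ce_an

theorem claimLoja : ClaimLoja :=
  claimLoja_of (lStep (lNormal lHad) lCore (lFactor lHad) (lDom lHad) lDomain) lTransfer

end Pool.Agent.Work.MP_4a14ce_an
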